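import Mathlib
import Pool.Agent.E3S.Fields
import Pool.Agent.Helper5.ETP.ZBasic

/-!
# E-T (MP_12a1af_nt), phase 3: facts about the zones of the layouts, trivial bounds
-/

variable [Pool.Agent.Helper29.E3.EpFn]

open Finset

namespace Pool.Agent.E3S

open Pool.Agent.ETS
open Pool.Agent.Helper29.ETK (Kid CC lg)
open Pool.Agent.Helper29.E3 (kid wb ep Wd av ab ag ak gth Wd_pos)
open Pool.Agent.E3 (pidx isPT Desc IsDesc Occ ddist)
open Pool.Agent.ETP (phiV)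
open Pool.Agent.Helper5.ETP

variable {C : Codes} {c t : ℕ}

/-- basic facts about the zones of a description -/
structure ZFacts (Z : Zone) (lo hi : ℕ) : Prop where
  le : lo ≤ hi
  top : Z.top = hi
  ok : Zone.Ok Z
  low : ∃ r, Zone.Low Z lo r
  card : Z.S.card ^ 2 ≤ 2 ^ (hi - lo)

lemma zoneOf_notPT {r0 r1 : Reg} {Z : Zone} (h : ¬ isPT r0) (hZ : ZoneOf C r0 r1 Z) :
    ∃ a κ, a < 2 ^ r1.bot ∧ Z = zreg C r1 a κ := by
  cases r0 with
  | PT p e f b => exact absurd trivial h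
  | P => exact hZ
  | R => exact hZ
  | RT => exact hZ
  | RTh => exact hZ
  | win => exact hZ
  | winC => exact hZ

lemma zfacts_reg {r0 r1 : Reg} {Z : Zone} {lo hi : ℕ} (h : ¬ isPT r0) (hg : RGood C r1)
    (hlo : r1.bot = lo) (hhi : r1.top C = hi) (hle : lo ≤ hi) (hZ : ZoneOf C r0 r1 Z) :
    ZFacts Z lo hi := by
  obtain ⟨a, κ, ha, rfl⟩ := zoneOf_notPT h hZ
  subst hlo hhi
  exact
    { le := hle
      top := rfl
      ok := zreg_ok C r1 hle ha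
      low := ⟨a, zreg_low C r1 ha⟩
      card := (Nat.pow_le_pow_left (zreg_card_le C r1 a κ) 2).trans hg.1 }

/-- facts about the descriptions with a block -/
lemma desc_PT {e1 g b : ℕ} (H : OneK c e1 t) (hc : 1 ≤ c) (hgb : g ≤ b)
    (hw : b + Wd c b ≤ wb c t)
    (hk : ∀ s, g ≤ s → s < b + Wd c b → kid c t s = .PT g b) :
    Wd c b ∣ b ∧ Wd c b ∣ g ∧ Wd c b ∣ av c t ∧ t ≤ CC c ^ 4 * b ∧ e1 ≤ ep c b ∧
      (g = 0 ∨ ep c g = ep c b) := by
  have hW := Wd_pos c b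
  have hkb := hk b hgb (by omega)
  obtain ⟨d1, d2, d3, d4⟩ := H.S.PT g b b (by omega) hkb
  exact ⟨d1, d2, d3, d4, H.e1_le hc d4, H.S.ep g b (by omega) (Or.inr ⟨b, hkb⟩)⟩

lemma desc_RT {e1 b v : ℕ} (H : OneK c e1 t) (hc : 1 ≤ c) (hbv : b < v) (hw : v ≤ wb c t)
    (hk : ∀ s, b ≤ s → s < v → kid c t s = .RT v) (hcut : b = 0 ∨ kid c t (b - 1) ≠ .RT v) :
    Wd c b ∣ b ∧ Wd c b ∣ v ∧ 0 < b ∧ t ≤ CC c ^ 4 * b ∧ e1 ≤ ep c b ∧ b + Wd c b ≤ v := by
  have hkb := hk b le_rfl hbv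
  have hb0 : 0 < b := by
    rcases Nat.eq_zero_or_pos b with h0 | h0
    · rw [h0] at hkb
      exact absurd hkb (H.S.z v).2
    · exact h0
  have hcut' : KCut c t b := by
    rcases hcut with h | h
    · exact Or.inl h
    · exact Or.inr (Or.inr (by rw [hkb]; exact h))
  obtain ⟨d1, d2⟩ := H.S.RT v b (by omega) hkb hcut'
  have h4 := H.S.low b hb0 (by omega) hcut'
  have h5 := Nat.le_of_dvd (by omega) (Nat.dvd_sub d2 d1)
  exact ⟨d1, d2, hb0, h4, H.e1_le hc h4, by omega⟩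

lemma desc_RTh {e1 b v : ℕ} (H : OneK c e1 t) (hc : 1 ≤ c) (hbv : b < v) (hw : v ≤ wb c t)
    (hk : ∀ s, b ≤ s → s < v → kid c t s = .RTh v) (hcut : b = 0 ∨ kid c t (b - 1) ≠ .RTh v) :
    Wd c b ∣ b ∧ Wd c b ∣ v ∧ 0 < b ∧ t ≤ CC c ^ 4 * b ∧ e1 ≤ ep c b ∧ b + Wd c b ≤ v := by
  have hkb := hk b le_rfl hbv
  have hb0 : 0 < b := by
    rcases Nat.eq_zero_or_pos b with h0 | h0
    · rw [h0] at hkb
      exact absurd hkb (H.S.z v).1
    · exact h0
  have hcut' : KCut c t b := by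
    rcases hcut with h | h
    · exact Or.inl h
    · exact Or.inr (Or.inr (by rw [hkb]; exact h))
  obtain ⟨d1, d2⟩ := H.S.RTh v b (by omega) hkb hcut'
  have h4 := H.S.low b hb0 (by omega) hcut'
  have h5 := Nat.le_of_dvd (by omega) (Nat.dvd_sub d2 d1)
  exact ⟨d1, d2, hb0, h4, H.e1_le hc h4, by omega⟩

/-- **Zones of a description.** -/
lemma zfacts_desc {e1 : ℕ} (HR : RegCodes c e1 C)
    (hT : ∀ e, e1 ≤ e → (C.T e).card ^ 2 ≤ 2 ^ C.W e) (hc : 1 ≤ c) (H : OneK c e1 t)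
    {d : Desc} {r0 r1 : Reg} (hd : IsDesc c t d r0 r1) {Z : Zone} (hZ : ZoneOf C r0 r1 Z) :
    ZFacts Z d.lo (d.hi c) := by
  have hW : ∀ s, C.W (ep c s) = Wd c s := fun s => HR.W _
  cases d with
  | P g e =>
    obtain ⟨rfl, h1, h2, h3, -⟩ := hd
    exact zfacts_reg h1 (HR.P _ _ _ h2.le) rfl rfl h2.le hZ
  | PT g b =>
    obtain ⟨rfl, h1, h2, h3, h4, h5, -⟩ := hd
    obtain ⟨d1, d2, -, -, d5, d6⟩ := desc_PT H hc h2 (by omega) h5
    refine zfacts_reg h1 (HR.PT g b d5 h2 d1 d2 d6) rfl ?_ ?_ hZ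
    · show b + C.W (ep c b) = b + Wd c b
      rw [hW]
    · show g ≤ b + Wd c b
      omega
  | RS g b v =>
    obtain ⟨rfl, rfl, h1, h2, h3, h4, h5, -⟩ := hd
    obtain ⟨d1, d2, -, -, d5, d6⟩ := desc_PT H hc h2 (by omega) h5
    obtain ⟨a, κ, κ₂, ha, rfl⟩ := hZ
    simp only [Reg.top]
    exact
      { le := by show b ≤ v; omega
        top := rfl
        ok := zRS_ok C (by rw [hW]; exact h3) ha
        low := ⟨a, zRS_low C ha⟩
        card := by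
          have e1' := zRS_card_le C (ep c b) b v a κ κ₂
          have e2 : (C.Y (v - (b + C.W (ep c b)))).card ^ 2 ≤ 2 ^ (v - (b + Wd c b)) := by
            rw [hW]
            exact (HR.R (b + Wd c b) v h3).1
          have e3 := hT (ep c b) d5
          rw [hW] at e3
          show _ ≤ 2 ^ (v - b)
          calc _ ≤ ((C.Y (v - (b + C.W (ep c b)))).card * (C.T (ep c b)).card) ^ 2 :=
                Nat.pow_le_pow_left e1' 2
            _ = (C.Y (v - (b + C.W (ep c b)))).card ^ 2 * (C.T (ep c b)).card ^ 2 := mul_pow _ _ _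
            _ ≤ 2 ^ (v - (b + Wd c b)) * 2 ^ Wd c b := Nat.mul_le_mul e2 e3
            _ = 2 ^ (v - b) := by rw [← pow_add]; congr 1; omega }
  | R b v =>
    obtain ⟨rfl, h1, h2, h3, -⟩ := hd
    exact zfacts_reg h1 (HR.R _ _ h2.le) rfl rfl h2.le hZ
  | RT b v =>
    obtain ⟨rfl, h1, h2, h3, h4, h5⟩ := hd
    obtain ⟨d1, d2, -, -, d5, d6⟩ := desc_RT H hc h2 h3 h4 h5
    refine zfacts_reg h1 (HR.RT _ b v d5 ?_ ?_) rfl rfl h2.le hZ
    · rw [hW]; exact d6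
    · rw [hW]; exact Nat.dvd_sub d2 d1
  | RTh b v =>
    obtain ⟨rfl, h1, h2, h3, h4, h5⟩ := hd
    obtain ⟨d1, d2, -, -, d5, d6⟩ := desc_RTh H hc h2 h3 h4 h5
    refine zfacts_reg h1 (HR.RTh _ b v d5 ?_ ?_) rfl rfl h2.le hZ
    · rw [hW]; exact d6
    · rw [hW]; exact Nat.dvd_sub d2 d1

/-- top of the region of a description -/
lemma top_desc {e1 : ℕ} (HR : RegCodes c e1 C) {d : Desc} {r0 r1 : Reg}
    (hd : IsDesc c t d r0 r1) : r1.top C = d.hi c := by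
  have hW : ∀ s, C.W (ep c s) = Wd c s := fun s => HR.W _
  cases d with
  | P g e => obtain ⟨rfl, -⟩ := hd; rfl
  | PT g b => obtain ⟨rfl, -⟩ := hd; show b + C.W (ep c b) = b + Wd c b; rw [hW]
  | RS g b v => obtain ⟨-, rfl, -⟩ := hd; rfl
  | R b v => obtain ⟨rfl, -⟩ := hd; rfl
  | RT b v => obtain ⟨rfl, -⟩ := hd; rfl
  | RTh b v => obtain ⟨rfl, -⟩ := hd; rfl

/-- bottom ≤ top ≤ bottom of the window -/
lemma desc_le {d : Desc} {r0 r1 : Reg} (hd : IsDesc c t d r0 r1) :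
    d.lo < d.hi c ∧ d.hi c ≤ wb c t := by
  cases d with
  | P g e => obtain ⟨-, -, h2, h3, -⟩ := hd; exact ⟨h2, h3⟩
  | PT g b =>
    obtain ⟨-, -, h2, h3, h4, -⟩ := hd
    have := Wd_pos c b
    exact ⟨by show g < b + Wd c b; omega, by show b + Wd c b ≤ _; omega⟩
  | RS g b v =>
    obtain ⟨-, -, h1, h2, h3, h4, -⟩ := hd
    have := Wd_pos c b
    exact ⟨by show b < v; omega, h4⟩
  | R b v => obtain ⟨-, -, h2, h3, -⟩ := hd; exact ⟨h2, h3⟩
  | RT b v => obtain ⟨-, -, h2, h3, -⟩ := hd; exact ⟨h2, h3⟩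
  | RTh b v => obtain ⟨-, -, h2, h3, -⟩ := hd; exact ⟨h2, h3⟩

lemma card_le_of_sq {n k : ℕ} (h : n ^ 2 ≤ 2 ^ k) : n ≤ 2 * 2 ^ (k / 2) := by
  by_contra hlt
  push Not at hlt
  have h1 : (2 * 2 ^ (k / 2)) ^ 2 < n ^ 2 := Nat.pow_lt_pow_left hlt (by norm_num)
  have h2 : 2 ^ k ≤ (2 * 2 ^ (k / 2)) ^ 2 := by
    rw [mul_pow, ← pow_mul]
    calc 2 ^ k ≤ 2 ^ (k / 2 * 2 + 1) := Nat.pow_le_pow_right (by norm_num) (by omega)
      _ = 2 * 2 ^ (k / 2 * 2) := by ring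
      _ ≤ 2 ^ 2 * 2 ^ (k / 2 * 2) := Nat.mul_le_mul_right _ (by norm_num)
  omega

/-- the parameters of a far pair -/
structure FarNum (c K K' : ℕ) : Prop where
  c5 : 5 ≤ CC c
  g : K' + gth c K ≤ K
  g16 : 16 * CC c ≤ gth c K

lemma FarNum.two_le {c K K' : ℕ} (H : FarNum c K K') : 2 ≤ 2 ^ (gth c K / (16 * CC c)) := by
  have h1 : 1 ≤ gth c K / (16 * CC c) := by
    rw [Nat.one_le_div_iff (by have := H.c5; omega)]
    exact H.g16
  calc 2 = 2 ^ 1 := rfl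
    _ ≤ _ := Nat.pow_le_pow_right (by norm_num) h1

/-- **(TRIV), bound by the values of the second zone** -/
theorem triv_right {K K' : ℕ} (HN : FarNum c K K') {r0 r1 r0' r1' : Reg} {lo hi lo' hi' x : ℕ}
    (ht : r1.top C = hi) (ht' : r1'.top C = hi')
    (hZ : ∀ Z, ZoneOf C r0 r1 Z → ZFacts Z lo hi)
    (hZ' : ∀ Z, ZoneOf C r0' r1' Z → ZFacts Z lo' hi')
    (hle : hi ≤ hi') (hK' : hi' ≤ K') (hlo' : lo' ≤ hi') (hx : hi ≤ lo' + x)
    (hxD : (10 * CC c + 5) * x ≤ 10 * CC c * (K - K')) : FarOK C c K K' r0 r1 r0' r1' := by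
  have hKK : K' ≤ K := by have := HN.g; omega
  refine ⟨2 * 2 ^ ((hi' - lo') / 2), ?_, ?_⟩
  · intro n Z Z' h h'
    have f := hZ Z h
    have f' := hZ' Z' h'
    refine (zcons_le_right f.ok (by rw [f.top]; omega) (by rw [f'.top]; exact hK')
      (by rw [f.top, f'.top]; exact hle)).trans ?_
    exact card_le_of_sq f'.card
  · rw [ht, ht']
    refine num_triv HN.c5 HN.g HN.two_le hxD ?_ (phiV_eq_of_le hKK (hle.trans hK') hK')
    have h1 : (((hi' - lo') / 2 : ℕ) : ℝ) ≤ ((hi' : ℝ) - lo') / 2 := by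
      have := natdiv_le (hi' - lo') 2
      rw [Nat.cast_sub hlo'] at this
      exact_mod_cast this
    have h2 : |(hi : ℝ) - hi'| = (hi' : ℝ) - hi := by
      rw [abs_sub_comm, abs_of_nonneg]
      have : (hi : ℝ) ≤ hi' := by exact_mod_cast hle
      linarith
    have h3 : (hi : ℝ) ≤ lo' + x := by exact_mod_cast hx
    rw [h2]
    linarith

/-- **(TRIV), bound by the values of the first zone** -/
theorem triv_left {K K' : ℕ} (HN : FarNum c K K') {r0 r1 r0' r1' : Reg} {lo hi lo' hi' x : ℕ}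
    (ht : r1.top C = hi) (ht' : r1'.top C = hi')
    (hZ : ∀ Z, ZoneOf C r0 r1 Z → ZFacts Z lo hi)
    (hZ' : ∀ Z, ZoneOf C r0' r1' Z → ZFacts Z lo' hi')
    (hle : hi' ≤ hi) (hK' : hi ≤ K') (hlo : lo ≤ hi) (hx : hi' ≤ lo + x)
    (hxD : (10 * CC c + 5) * x ≤ 10 * CC c * (K - K')) : FarOK C c K K' r0 r1 r0' r1' := by
  have hKK : K' ≤ K := by have := HN.g; omega
  refine ⟨2 * 2 ^ ((hi - lo) / 2), ?_, ?_⟩
  · intro n Z Z' h h'
    have f := hZ Z h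
    have f' := hZ' Z' h'
    refine (zcons_le_left f'.ok (by rw [f.top]; omega) (by rw [f'.top]; omega)
      (by rw [f.top, f'.top]; exact hle)).trans ?_
    exact card_le_of_sq f.card
  · rw [ht, ht']
    refine num_triv HN.c5 HN.g HN.two_le hxD ?_ (phiV_eq_of_le hKK hK' (hle.trans hK'))
    have h1 : (((hi - lo) / 2 : ℕ) : ℝ) ≤ ((hi : ℝ) - lo) / 2 := by
      have := natdiv_le (hi - lo) 2
      rw [Nat.cast_sub hlo] at this
      exact_mod_cast this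
    have h2 : |(hi : ℝ) - hi'| = (hi : ℝ) - hi' := by
      rw [abs_of_nonneg]
      have : (hi' : ℝ) ≤ hi := by exact_mod_cast hle
      linarith
    have h3 : (hi' : ℝ) ≤ lo + x := by exact_mod_cast hx
    rw [h2]
    linarith

end Pool.Agent.E3S
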