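import Mathlib
import Pool.Agent.E3S.Glue1
import Pool.Agent.Helper41.ETPR
import Pool.Agent.Helper86.ET.Q7

/-!
# E-T (MP_12a1af_nt), phase 3: the far bounds (PP) and (RR) for the zones of the layouts
-/

variable [Pool.Agent.Helper29.E3.EpFn]

open Finset

namespace Pool.Agent.E3S

open Pool.Agent.ETS
open Pool.Agent.Helper29.ETK (Kid CC lg)
open Pool.Agent.Helper29.E3 (kid wb ep Wd av ab ag ak gth Wd_pos)
open Pool.Agent.E3 (pidx isPT Desc IsDesc Occ ddist)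
open Pool.Agent.ETP (phiV)
open Pool.Agent.Helper5.ETP
open Pool.Agent.Helper41.ETPP (IsPr PTok dl dw dT)

/-- code properties for far pairs: `g` the near threshold, `E` the largest epoch -/
structure FarCodes (c e1 : ℕ) (C : Codes) (g E : ℕ) : Prop where
  reg : RegCodes c e1 C
  T : ∀ e, e1 ≤ e → (C.T e).card ^ 2 ≤ 2 ^ C.W e
  rr : ∀ e, e1 ≤ e → e ≤ E → ∃ B r, RC.RHyp C e B r ∧ 153738 * B ≤ 2 ^ (g / (4 * CC c))
  pp : ∀ p, ∃ cd : Pool.Agent.Helper83.ET.Code, (∀ l, C.X p l = cd.X l) ∧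
    (∀ l x, C.P p l x = cd.P l x) ∧ ∃ B, 1 ≤ B ∧ 4 * B ≤ 2 ^ (g / 4) ∧
      ∀ a b, pidx c a = p → e1 ≤ ep c b → ep c b ≤ E → a ≤ b → Wd c b ∣ b → Wd c b ∣ a →
        (a = 0 ∨ ep c a = ep c b) → PTok C cd B (ep c b) (b - a)

variable {C : Codes} {c t : ℕ}

lemma ep_mono {a b : ℕ} (h : a ≤ b) : ep c a ≤ ep c b := by
  unfold ep lg
  exact Helper29.E3.epf_mono (Nat.log_mono_right h)

lemma Wd_dvd {a b : ℕ} (h : a ≤ b) : Wd c a ∣ Wd c b := pow_dvd_pow _ (ep_mono h)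

lemma isPr_desc {e1 g E : ℕ} (HF : FarCodes c e1 C g E) (hc : 1 ≤ c) (H : OneK c e1 t)
    (hE : ep c t ≤ E) {d : Desc} {r0 r1 : Reg} (hd : IsDesc c t d r0 r1) (hP : d.IsP)
    {cd : Pool.Agent.Helper83.ET.Code} {B : ℕ}
    (hB : ∀ a b, pidx c a = pidx c d.lo → e1 ≤ ep c b → ep c b ≤ E → a ≤ b → Wd c b ∣ b →
      Wd c b ∣ a → (a = 0 ∨ ep c a = ep c b) → PTok C cd B (ep c b) (b - a)) :
    IsPr C cd B (pidx c d.lo) d.lo r1 ∧ ¬ isPT r0 ∧ r1.bot = d.lo ∧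
    ∃ L, dl r1 = L - d.lo ∧ d.lo ≤ L ∧ (∀ s, s < L → Wd c s ∣ L) ∧
      ∀ p' e' f' b', r1 = Reg.PT p' e' f' b' → b' = L ∧ e' = ep c L ∧ Wd c L ∣ d.lo ∧
        Wd c L ∣ L := by
  have hwt := H.K.wbt
  cases d with
  | P a e =>
    obtain ⟨rfl, h1, h2, h3, h4, h5⟩ := hd
    refine ⟨⟨rfl, rfl, h2.le⟩, h1, rfl, e, rfl, h2.le, ?_, ?_⟩
    · intro s hs
      have hcut : KCut c t e := by
        rcases h5 with h | h
        · exact Or.inr (Or.inl h)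
        · refine Or.inr (Or.inr ?_)
          rw [h4 (e - 1) (by omega) (by omega)]
          exact fun h' => h h'.symm
      have h6 := (H.S.P a a (by omega) (h4 a le_rfl h2) e h2 h3 hcut
        (fun s' h7 h8 => h4 s' h7 h8)).1
      exact (Wd_dvd (by omega)).trans h6
    · intro p' e' f' b' h
      cases h
  | PT a b =>
    obtain ⟨rfl, h1, h2, h3, h4, h5, -⟩ := hd
    obtain ⟨d1, d2, -, -, d5, d6⟩ := desc_PT H hc h2 (by omega) h5
    have hbt : ep c b ≤ E := (ep_mono (by omega)).trans hE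
    refine ⟨⟨rfl, rfl, h2, hB a b rfl d5 hbt h2 d1 d2 d6⟩, h1, rfl, b, rfl, h2, ?_, ?_⟩
    · intro s hs
      exact (Wd_dvd hs.le).trans d1
    · intro p' e' f' b' h
      injection h with q1 q2 q3 q4
      subst q1 q2 q3 q4
      exact ⟨rfl, rfl, d2, d1⟩
  | RS => exact hP.elim
  | R => exact hP.elim
  | RT => exact hP.elim
  | RTh => exact hP.elim

/-- **(PP)** -/
theorem far_PP {e1 E K K' : ℕ} (HN : FarNum c K K') (HF : FarCodes c e1 C (gth c K) E)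
    (hc : 1 ≤ c) (H : OneK c e1 K) (H' : OneK c e1 K') (hE : ep c K ≤ E) {d d' : Desc}
    {r0 r1 r0' r1' : Reg} (hd : IsDesc c K d r0 r1) (hd' : IsDesc c K' d' r0' r1') (hP : d.IsP)
    (hP' : d'.IsP) (hlo : d.lo = d'.lo) (hK' : d.hi c ≤ K') : FarOK C c K K' r0 r1 r0' r1' := by
  have hW : ∀ s, C.W (ep c s) = Wd c s := fun s => HF.reg.W _
  obtain ⟨cd, hX, hPc, B, hB1, hB4, hB⟩ := HF.pp (pidx c d.lo)
  obtain ⟨i1, n1, b1, L, l1, l2, l3, l4⟩ := isPr_desc HF hc H hE hd hP hB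
  obtain ⟨i2, n2, b2, L', m1, m2, m3, m4⟩ := isPr_desc HF hc H'
    ((ep_mono (by have := HN.g; omega)).trans hE) hd' hP' (by rw [← hlo]; exact hB)
  rw [← hlo] at i2 m1 m2 m4 b2
  have t1 := top_desc HF.reg hd
  have t2 := top_desc HF.reg hd'
  have w2 := (desc_le hd').2
  have w3 := H'.K.wbt
  have hKg := HN.g
  refine ⟨4 * B * 2 ^ ((r1.top C - r1'.top C + (r1'.top C - r1.top C) + 1) / 2), ?_, ?_⟩
  · intro n Z Z' h h'
    obtain ⟨a, κ, -, rfl⟩ := zoneOf_notPT n1 h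
    obtain ⟨a', κ', -, rfl⟩ := zoneOf_notPT n2 h'
    refine Pool.Agent.Helper41.ETPP.PP hX hPc hB1 i1 i2 ?_ ?_ ?_ (by rw [t1]; omega)
      (by rw [t2]; omega) n a a' κ κ'
    · intro p' e' f' b' hr hlt
      obtain ⟨q1, q2, q3, q4⟩ := l4 p' e' f' b' hr
      rw [l1, m1] at hlt
      rw [l1, m1, q2, hW]
      exact ⟨Nat.dvd_sub q4 q3, Nat.dvd_sub (m3 L (by omega)) q3⟩
    · intro p' e' f' b' hr hlt
      obtain ⟨q1, q2, q3, q4⟩ := m4 p' e' f' b' hr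
      rw [l1, m1] at hlt
      rw [l1, m1, q2, hW]
      exact ⟨Nat.dvd_sub q4 q3, Nat.dvd_sub (l3 L' (by omega)) q3⟩
    · intro p₁ e₁ f₁ b₁ p₂ e₂ f₂ b₂ hr hr' heq
      obtain ⟨q1, q2, -, -⟩ := l4 _ _ _ _ hr
      obtain ⟨q3, q4, -, -⟩ := m4 _ _ _ _ hr'
      rw [l1, m1] at heq
      have : L = L' := by omega
      rw [q2, q4, this]
  · have hC5 := HN.c5
    have h16 := HN.g16
    exact num_PP (by omega) hKg (by rw [t1]; exact hK') (by rw [t2]; omega) hB4 (by omega)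

/-- kind of a description -/
def rkind : Desc → RC.RKind
  | .RS _ _ _ => .RS
  | .RT _ _ => .RT
  | .RTh _ _ => .RTh
  | _ => .R

lemma rzone_desc {e1 : ℕ} (HR : RegCodes c e1 C) (hc : 1 ≤ c) (H : OneK c e1 t)
    {d : Desc} {r0 r1 : Reg} (hd : IsDesc c t d r0 r1) (hd2 : d.IsR) :
    e1 ≤ ep c d.lo ∧ (rkind d).lo (Wd c d.lo) d.lo = d.Im c ∧
      (rkind d).hi (Wd c d.lo) d.lo = d.Ip c ∧
    ∀ Z, ZoneOf C r0 r1 Z → ∃ a κ₀ κ, Z = (rkind d).zone C (ep c d.lo) (d.hi c) d.lo a κ₀ κ ∧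
      RC.RPos (Wd c d.lo) (d.hi c) (rkind d) d.lo a := by
  cases d with
  | P g e => exact hd2.elim
  | PT g b => exact hd2.elim
  | RS g b v =>
    obtain ⟨rfl, rfl, h1, h2, h3, h4, h5, -⟩ := hd
    obtain ⟨d1, d2, d3, -, d5, d6⟩ := desc_PT H hc h2 (by omega) h5
    have hW := Wd_pos c b
    refine ⟨d5, rfl, rfl, ?_⟩
    rintro Z ⟨a, κ, κ₂, ha, rfl⟩
    refine ⟨a, κ, κ₂, rfl, ?_⟩
    exact
      { ha := ha
        hb := by show b < v; omega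
        hhi := h3
        hdvd := by rw [h1]; exact Nat.dvd_sub d3 d1 }
  | R b v =>
    obtain ⟨rfl, h1, h2, h3, h4, h5⟩ := hd
    have hkb := h4 b le_rfl h2
    have hcut : KCut c t b := by
      rcases h5 with h | h
      · exact Or.inl h
      · exact Or.inr (Or.inr (by rw [hkb]; exact h))
    obtain ⟨q0, q1, q2⟩ := H.R v b (by omega) hkb hcut
    have h6 := H.S.low b q0 (by omega) hcut
    refine ⟨H.e1_le hc h6, rfl, rfl, ?_⟩
    intro Z hZ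
    obtain ⟨a, κ, ha, rfl⟩ := zoneOf_notPT h1 hZ
    refine ⟨a, 0, κ, rfl, ?_⟩
    exact
      { ha := ha
        hb := h2
        hhi := h2.le
        hdvd := Nat.dvd_sub q2 q1 }
  | RT b v =>
    obtain ⟨rfl, h1, h2, h3, h4, h5⟩ := hd
    obtain ⟨d1, d2, -, -, d5, d6⟩ := desc_RT H hc h2 h3 h4 h5
    refine ⟨d5, rfl, rfl, ?_⟩
    intro Z hZ
    obtain ⟨a, κ, ha, rfl⟩ := zoneOf_notPT h1 hZ
    refine ⟨a, 0, κ, rfl, ?_⟩
    exact
      { ha := ha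
        hb := h2
        hhi := d6
        hdvd := Nat.dvd_sub d2 d1 }
  | RTh b v =>
    obtain ⟨rfl, h1, h2, h3, h4, h5⟩ := hd
    obtain ⟨d1, d2, -, -, d5, d6⟩ := desc_RTh H hc h2 h3 h4 h5
    refine ⟨d5, rfl, rfl, ?_⟩
    intro Z hZ
    obtain ⟨a, κ, ha, rfl⟩ := zoneOf_notPT h1 hZ
    refine ⟨a, 0, κ, rfl, ?_⟩
    exact
      { ha := ha
        hb := h2
        hhi := d6
        hdvd := Nat.dvd_sub d2 d1 }

/-- **(RR)**: the same top -/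
theorem far_RR {e1 E K K' : ℕ} (HN : FarNum c K K') (HF : FarCodes c e1 C (gth c K) E)
    (hc : 1 ≤ c) (H : OneK c e1 K) (H' : OneK c e1 K') (hE : ep c K ≤ E) {d d' : Desc}
    {r0 r1 r0' r1' : Reg} (hd : IsDesc c K d r0 r1) (hd' : IsDesc c K' d' r0' r1') (hR : d.IsR)
    (hR' : d'.IsR) (hhi : d.hi c = d'.hi c) (he : ep c d.lo = ep c d'.lo)
    (hx : (10 * CC c + 9) * ddist c d d' ≤ 10 * CC c * (K - K')) :
    FarOK C c K K' r0 r1 r0' r1' := by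
  have hW : ∀ s, C.W (ep c s) = Wd c s := fun s => HF.reg.W _
  obtain ⟨a1, a2, a3, a4⟩ := rzone_desc HF.reg hc H hd hR
  obtain ⟨b1, b2, b3, b4⟩ := rzone_desc HF.reg hc H' hd' hR'
  have t1 := top_desc HF.reg hd
  have t2 := top_desc HF.reg hd'
  have w2 := (desc_le hd').2
  have w3 := H'.K.wbt
  have v1 := desc_le hd
  have hKg := HN.g
  have hWW : Wd c d'.lo = Wd c d.lo := by unfold Wd; rw [he]
  obtain ⟨B, r, hRH, hB⟩ := HF.rr (ep c d.lo) a1 ((ep_mono (by omega)).trans hE)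
  have hdist : RC.rdist (Wd c d.lo) (rkind d) (rkind d') d.lo d'.lo = ddist c d d' := by
    unfold RC.rdist ddist
    rw [hWW] at b2 b3
    rw [a2, a3, b2, b3]
  refine ⟨153738 * B * 2 ^ (ddist c d d' / 2), ?_, ?_⟩
  · intro n Z Z' h h'
    obtain ⟨a, κ₀, κ, rfl, hp⟩ := a4 Z h
    obtain ⟨a', κ₀', κ', rfl, hp'⟩ := b4 Z' h'
    rw [← he, ← hhi]
    rw [hWW, ← hhi] at hp'
    have := RC.RR hRH (rkind d) (rkind d') (v := d.hi c) (b := d.lo) (a := a) (b' := d'.lo)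
      (a' := a') (by rw [hW]; exact hp) (by rw [hW]; exact hp') κ₀ κ κ₀' κ' (K := K) (K' := K') n
      (by omega) (by omega)
    rw [hW, hdist] at this
    exact this
  · rw [t1, t2, ← hhi]
    refine num_main HN.c5 hKg hB hx ?_ (phiV_eq_of_le (by omega) (by omega) (by omega))
    rw [sub_self, abs_zero]
    have h1 : ((ddist c d d' / 2 : ℕ) : ℝ) ≤ (ddist c d d' : ℝ) / 2 := by
      exact_mod_cast natdiv_le (ddist c d d') 2
    linarith

end Pool.Agent.E3S
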