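import Mathlib
import Pool.Agent.Helper86.E3.DescDefs

/-!
# E-T (MP_12a1af_nt), phase 3: the kinematic facts for two far times
-/

variable [Pool.Agent.Helper29.E3.EpFn]

namespace Pool.Agent.E3S

open Pool.Agent.Helper29.ETK (Kid CC lg)
open Pool.Agent.Helper29.E3 (ep Wd wb zb un gth j0)
open Pool.Agent.E3 (Desc Occ ddist)

/-- **The kinematic facts for two far times** `K' + gth c K ≤ K` (merged parts). -/
structure FarKin (c K K' : ℕ) : Prop where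
  wbK' : wb c K' ≤ K'
  wbK : wb c K ≤ K
  /-- laminarity -/
  lamR : ∀ d d', Occ c K d → Occ c K' d' → d.IsR → d.hi c ≤ wb c K' →
    d'.hi c ≤ d.hi c ∨ d.hi c ≤ d'.lo
  lamP : ∀ d d', Occ c K d → Occ c K' d' → d.IsP → d.lo ≤ wb c K' →
    d'.hi c ≤ d.lo ∨ d.lo ≤ d'.lo
  /-- `P` run of `g` at `K`, `R` zone at `K'` above `g` -/
  F1 : ∀ d d', Occ c K d → Occ c K' d' → d.IsP → d'.IsR → d.lo ≤ d'.lo →
    (10 * CC c + 9) * (d.hi c - d'.Ip c) ≤ 10 * CC c * (K - K')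
  /-- `P` run of `g` at `K`, `P` run of `g' > g` at `K'` -/
  F1P : ∀ d d', Occ c K d → Occ c K' d' → d.IsP → d'.IsP → d.lo < d'.lo →
    (10 * CC c + 9) * (d.hi c - d'.lo) ≤ 10 * CC c * (K - K')
  /-- `R` zone at `K`, `P` run at `K'` -/
  F2 : ∀ d d', Occ c K d → Occ c K' d' → d.IsR → d'.IsP → d'.hi c ≤ d.hi c →
    (10 * CC c + 9) * (d'.hi c - d.Ip c) ≤ 10 * CC c * (K - K')
  /-- `R` zone at `K`, `P` run at `K'` which starts strictly above the bottom of the zone -/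
  F2L : ∀ d d', Occ c K d → Occ c K' d' → d.IsR → d'.IsP → d.lo < d'.lo → d'.hi c ≤ d.hi c →
    (10 * CC c + 5) * (d'.hi c - d.lo) ≤ 10 * CC c * (K - K')
  /-- `R` zone at `K`, `R` zone with smaller top at `K'` -/
  F2R : ∀ d d', Occ c K d → Occ c K' d' → d.IsR → d'.IsR → d'.hi c < d.hi c →
    (10 * CC c + 9) * (d'.hi c - d.lo) ≤ 10 * CC c * (K - K')
  /-- same top -/
  F3 : ∀ d d', Occ c K d → Occ c K' d' → d.IsR → d'.IsR → d.hi c = d'.hi c →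
    ep c d.lo = ep c d'.lo ∧ (10 * CC c + 9) * ddist c d d' ≤ 10 * CC c * (K - K')
  /-- zones are far below the top -/
  F5R : ∀ d, Occ c K d → d.IsR → (CC c + 1) * (d.hi c - d.lo) ≤ CC c * (K - d.hi c) ∧
    d.hi c + 2 * Wd c d.lo ≤ K
  F5P : ∀ d, Occ c K d → d.IsP → ∃ l, 1 ≤ l ∧ d.hi c - d.lo ≤ CC c ^ l ∧
    d.hi c + 5 * CC c ^ (l - 1) ≤ K ∧ (0 < d.lo → CC c ^ j0 c d.lo ≤ CC c ^ (l - 1)) ∧
    (d.lo = 0 → CC c ^ (l - 1) ≤ d.hi c)
  /-- a `P` zone of `K` which contains `K'` -/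
  F7 : ∀ d, Occ c K d → d.IsP → d.lo < K' → K' < d.hi c → 10 * (K' - wb c K') ≤ 9 * (K - K')
  /-- all zones are far below the top -/
  F8 : ∀ d, Occ c K d → d.hi c + 2 * gth c K ≤ K
  /-- `R` zone at `K`, position `s` of the top zone of `K'` inside it -/
  T1 : ∀ d s, Occ c K d → d.IsR → wb c K' ≤ s → d.lo ≤ s → s < d.hi c →
    d.lo ≤ un c s ∧ un c s + Wd c s ≤ d.hi c ∧
    ((∃ b, d = .RTh b (b + Wd c b)) ∨
      (10 * CC c + 9) * (un c s + Wd c s - d.lo) ≤ 10 * CC c * (K - K'))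
  /-- `P` zone at `K`, position `s` of the top zone of `K'` inside it -/
  T1P : ∀ d s, Occ c K d → d.IsP → wb c K' ≤ s → d.lo ≤ s → s < d.hi c → s < K' →
    d.lo ≤ un c s ∧ un c s + Wd c s ≤ d.hi c ∧ 4 * CC c ^ j0 c s ≤ K - K'

end Pool.Agent.E3S
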