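import Mathlib
import Pool.Agent.Helper84.E3.TopDefs
import Pool.Agent.Helper83.E3.Mk2
import Pool.Agent.Helper16.E3.Fam
import Pool.Agent.Helper29.E3.Top
import Pool.Agent.Helper86.E3.Grid
import Pool.Agent.E3S.FarMk

/-!
# E-T (MP_12a1af_nt), phase 3: the instance of `Geo`
-/

variable [Pool.Agent.Helper29.E3.EpFn]

set_option autoImplicit false

open Finset

namespace Pool.Agent.E3S

open Pool.Agent.E3 (Geo SdOk TS tsL layL LF famL famR famB fam0)
open Pool.Agent.Helper29.ETK (CC lg kk Gq)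
open Pool.Agent.Helper29.E3 (ep epo gth Ld zb wn sb wb om ll hh Big TopOK ms th)
open Pool.Agent.Helper83.ET Pool.Agent.Helper83.E3
open Pool.Agent.ETS.RC (Mult)

variable {c : ℕ} {Sd : ℕ → Finset ℕ}

/-- the lists of one scale -/
noncomputable def lf1 (c : ℕ) (Sd : ℕ → Finset ℕ) : TS → Finset (Finset ℕ)
  | .none => ∅
  | .W e => (Fam2 c Sd e).image (fun q => (loc2 c Sd e).1 ∩ q)
  | .H e => (Fam1 c Sd e).image (fun q => (loc1 c Sd e).1 ∩ q)

/-- the lists of two scales in T-states -/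
noncomputable def lf2 (c : ℕ) (Sd : ℕ → Finset ℕ) : TS → TS → Finset (Finset (ℕ × ℕ))
  | .W e, .W _ => (range (2 ^ (CC c ^ e))).image (fun ν =>
      ((loc2 c Sd e).1 ×ˢ (loc2 c Sd e).1).filter (fun p => p.1 + p.2 ≡ ν [MOD 2 ^ (CC c ^ e)]))
  | .H e, .H _ => (range (2 ^ hh c e)).image (fun ν =>
      ((loc1 c Sd e).1 ×ˢ (loc1 c Sd e).1).filter (fun p => p.1 + p.2 ≡ ν [MOD 2 ^ hh c e]))
  | _, _ => ∅

/-- **the geometry of the schedule** -/
noncomputable def geo (c K1 : ℕ) (Sd : ℕ → Finset ℕ) : Geo where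
  ln := Ld c
  q := zb c
  Sd := Sd
  g := gth c
  lO K := Ld c (om c K)
  isT K := tsL (layL c K) ≠ .none
  LF1 K := lf1 c Sd (tsL (layL c K))
  LF2 K K' := lf2 c Sd (tsL (layL c K)) (tsL (layL c K'))
  K0 := K1
  A K := 1000 * CC c ^ (ms (epo c K) + 2 - epo c K)
  b K := 2 ^ 40 * CC c ^ 6 * 2 ^ kk (epo c K)
  d K := ll c (epo c K) / 8
  E K := 153 * CC c ^ (epo c K + 2)
  l1 K := ll c (epo c K + 1)
  th K := th c (epo c K)

/-- the facts about the T-states and Omega which are used -/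
structure TsHyp (c K1 : ℕ) : Prop where
  W : ∀ K, K1 ≤ K → ∀ e, tsL (layL c K) = .W e → 40 ≤ e ∧ e ≤ ep c K
  H : ∀ K, K1 ≤ K → ∀ e, tsL (layL c K) = .H e → epo c K ≤ e ∧ e ≤ ep c K
  om : ∀ K K', K1 ≤ K' → K' ≤ K → K < K' + gth c K →
    (tsL (layL c K) ≠ .none ∨ tsL (layL c K') ≠ .none) → om c K = om c K'
  same : ∀ K K', K1 ≤ K' → K' ≤ K → K < K' + gth c K →
    tsL (layL c K) ≠ .none → tsL (layL c K') ≠ .none → tsL (layL c K) = tsL (layL c K')
  omle : ∀ K, K1 ≤ K → wb c K ≤ Pool.Agent.Helper29.E3.om c K ∧ Pool.Agent.Helper29.E3.om c K ≤ K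

/-- the standing assumptions on the first scale -/
structure BigK (c K1 : ℕ) : Prop where
  c20 : 20 ≤ c
  big : Big c K1
  e100 : 100 ≤ epo c K1

lemma BigK.epo {K1 K : ℕ} (h : BigK c K1) (hK : K1 ≤ K) : 100 ≤ epo c K :=
  h.e100.trans (Pool.Agent.Helper29.E3.epo_mono hK)

/-! ### numbers -/

lemma ll_mono_all (hc : 10 ≤ c) : Monotone (ll c) := by
  apply monotone_nat_of_le_succ
  intro e
  unfold ll
  apply Nat.pow_le_pow_right (by norm_num)
  have h1 := Pool.Agent.Helper86.E3.kk_succ_le e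
  rcases Nat.lt_or_ge e 3 with h | h
  · have : e - 3 = 0 := by omega
    rw [this, mul_zero]
    omega
  · have h2 : c * (e + 1 - 3) = c * (e - 3) + c := by
      have : e + 1 - 3 = e - 3 + 1 := by omega
      rw [this, mul_add, mul_one]
    omega

lemma ll_exp {e : ℕ} (hc : 20 ≤ c) (he : 20 ≤ e) :
    ll c e * 2 ^ (19 + kk e) * CC c ^ 4 = CC c ^ e := by
  have hk := kk_le (show 9 ≤ e by omega)
  unfold ll CC
  rw [← pow_mul, ← pow_mul, ← pow_add, ← pow_add]
  congr 1
  have h1 : c * (e - 3) = c * (e - 20) + 17 * c := by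
    have : e - 3 = e - 20 + 17 := by omega
    rw [this, mul_add]
    ring
  have h2 : c * e = c * (e - 20) + 20 * c := by
    have : e = e - 20 + 20 := by omega
    conv_lhs => rw [this, mul_add]
    ring
  have h3 : 20 * (e - 20) ≤ c * (e - 20) := Nat.mul_le_mul_right _ hc
  omega

lemma eight_dvd_ll {e : ℕ} (hc : 20 ≤ c) (he : 20 ≤ e) : 8 ∣ ll c e := by
  have hk := kk_le (show 9 ≤ e by omega)
  have h1 : c * (e - 3) = c * (e - 20) + 17 * c := by
    have : e - 3 = e - 20 + 17 := by omega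
    rw [this, mul_add]
    ring
  have h3 : 20 * (e - 20) ≤ c * (e - 20) := Nat.mul_le_mul_right _ hc
  have : (8 : ℕ) = 2 ^ 3 := by norm_num
  rw [this]
  unfold ll
  exact pow_dvd_pow 2 (by omega)

lemma ll_le_pow {e : ℕ} (hc : 20 ≤ c) (he : 20 ≤ e) : ll c e ≤ CC c ^ e := by
  rw [← ll_exp hc he]
  have h1 : 1 ≤ 2 ^ (19 + kk e) := Nat.one_le_two_pow
  have h2 : 1 ≤ CC c ^ 4 := Nat.one_le_pow _ _ (CC_pos c)
  calc ll c e = ll c e * 1 * 1 := by ring
    _ ≤ _ := Nat.mul_le_mul (Nat.mul_le_mul_left _ h1) h2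

/-- `d` is large -/
lemma d_big {e : ℕ} (hc : 20 ≤ c) (he : 100 ≤ e) :
    (c + 1) * (e + 100) ≤ ll c e / 8 := by
  have hk := kk_le (show 9 ≤ e by omega)
  have h1 : c * (e - 3) = c * (e - 20) + 17 * c := by
    have : e - 3 = e - 20 + 17 := by omega
    rw [this, mul_add]
    ring
  have h3 : 20 * (e - 20) ≤ c * (e - 20) := Nat.mul_le_mul_right _ hc
  rw [Nat.le_div_iff_mul_le (by norm_num)]
  unfold ll
  have h4 : c + (e + 10) ≤ c * (e - 3) - 19 - kk e - c := by omega
  calc (c + 1) * (e + 100) * 8 ≤ 2 ^ c * 2 ^ (e + 10) := by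
        have h5 : c + 1 ≤ 2 ^ c := Nat.lt_two_pow_self
        have h6 : (e + 100) * 8 ≤ 2 ^ (e + 10) := by
          have h7 : e + 1 ≤ 2 ^ e := Nat.lt_two_pow_self
          have h8 : (2:ℕ) ^ 10 = 1024 := by norm_num
          rw [pow_add, h8]
          omega
        calc (c + 1) * (e + 100) * 8 = (c + 1) * ((e + 100) * 8) := by ring
          _ ≤ _ := Nat.mul_le_mul h5 h6
    _ = 2 ^ (c + (e + 10)) := by rw [← pow_add]
    _ ≤ _ := Nat.pow_le_pow_right (by norm_num) h4

lemma one_le_X (c e : ℕ) : 1 ≤ CC c ^ e := Nat.one_le_pow _ _ (CC_pos c)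

lemma l1_small {e : ℕ} (hc : 20 ≤ c) (he : 100 ≤ e) : 20 * ll c (e + 1) + 400 ≤ CC c ^ (e + 2) := by
  have h1 := ll_le_pow (e := e + 1) hc (by omega)
  have h2 := CC_ge hc
  have h3 : CC c ^ (e + 2) = CC c ^ (e + 1) * CC c := pow_succ _ _
  rw [h3]
  have h4 := one_le_X c (e + 1)
  nlinarith

lemma numb_aux {e : ℕ} (hc : 20 ≤ c) (he : 100 ≤ e) :
    155 * CC c ^ (e + 2) ≤ 2 ^ 40 * CC c ^ 6 * 2 ^ kk e * (ll c e / 8) := by
  have h1 := ll_exp (c := c) (e := e) hc (by omega)
  obtain ⟨d, hd⟩ := eight_dvd_ll (c := c) (e := e) hc (by omega)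
  have h2 : ll c e / 8 = d := by omega
  rw [h2]
  rw [hd] at h1
  have h3 : CC c ^ (e + 2) = CC c ^ 2 * (8 * d * 2 ^ (19 + kk e) * CC c ^ 4) := by
    rw [h1, ← pow_add]; congr 1; ring
  rw [h3]
  have h4 : (2:ℕ) ^ (19 + kk e) = 2 ^ 19 * 2 ^ kk e := pow_add _ _ _
  rw [h4]
  calc 155 * (CC c ^ 2 * (8 * d * (2 ^ 19 * 2 ^ kk e) * CC c ^ 4))
      = (155 * 8 * 2 ^ 19) * (CC c ^ 6 * 2 ^ kk e * d) := by ring
    _ ≤ 2 ^ 40 * (CC c ^ 6 * 2 ^ kk e * d) := Nat.mul_le_mul_right _ (by norm_num)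
    _ = _ := by ring

lemma ep_le_epo' {K : ℕ} : ep c K ≤ epo c K + 1 := ep_le_epo c K

lemma numd_aux {e : ℕ} (hc : 20 ≤ c) (he : 100 ≤ e) :
    1000 * CC c ^ (e + 2) ≤ 2 ^ (ll c e / 8 - 20) := by
  have h1 := d_big (c := c) hc he
  have h2 : 10 + c * (e + 2) ≤ ll c e / 8 - 20 := by
    have : c * (e + 2) + 30 ≤ (c + 1) * (e + 100) := by nlinarith
    omega
  calc 1000 * CC c ^ (e + 2) ≤ 2 ^ 10 * CC c ^ (e + 2) := Nat.mul_le_mul_right _ (by norm_num)
    _ = 2 ^ (10 + c * (e + 2)) := by unfold CC; rw [← pow_mul, ← pow_add]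
    _ ≤ _ := Nat.pow_le_pow_right (by norm_num) h2

/-- the exponent of the large bound -/
lemma ax_mono {e f : ℕ} (h : e ≤ f) : ms e + 2 - e ≤ ms f + 2 - f := by
  induction f, h using Nat.le_induction with
  | base => exact le_refl _
  | succ n hn ih =>
    have h1 := Pool.Agent.Helper29.E3.ms_succ_lt n
    have h2 := Pool.Agent.Helper29.E3.le_ms n
    omega

lemma ax_succ (e : ℕ) : ms (e + 1) + 1 - (e + 1) ≤ ms e + 2 - e := by
  have h1 := Pool.Agent.Helper29.E3.ms_succ_le e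
  have h2 := Pool.Agent.Helper29.E3.le_ms e
  omega

/-- the large bound times the thinning -/
lemma A_mul_th (c e : ℕ) : CC c ^ (ms e + 2 - e) * th c e = CC c ^ (e + 2) := by
  unfold th
  rw [← pow_add]
  congr 1
  have h1 := Pool.Agent.Helper29.E3.ms_le_two e
  have h2 := Pool.Agent.Helper29.E3.le_ms e
  omega

/-- the thinned bound of the epoch `e` -/
lemma Bt_le {e X : ℕ} (hX : X ≤ CC c ^ (e + 1)) :
    Bt X (th c e) ≤ 1000 * CC c ^ (ms e + 1 - e) := by
  have h0 : 0 < th c e := Pool.Agent.Helper29.E3.one_le_th c e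
  have h1 : CC c ^ (ms e + 1 - e) * th c e = CC c ^ (e + 1) := by
    unfold th
    rw [← pow_add]
    congr 1
    have h1 := Pool.Agent.Helper29.E3.ms_le_two e
    have h2 := Pool.Agent.Helper29.E3.le_ms e
    omega
  have h2 : 160 * X / th c e ≤ 160 * CC c ^ (ms e + 1 - e) := by
    apply Nat.div_le_of_le_mul
    calc 160 * X ≤ 160 * CC c ^ (e + 1) := Nat.mul_le_mul_left _ hX
      _ = th c e * (160 * CC c ^ (ms e + 1 - e)) := by rw [← h1]; ring
  have h3 : 1 ≤ CC c ^ (ms e + 1 - e) := Nat.one_le_pow _ _ (CC_pos c)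
  unfold Bt Helper83.E3.mt
  omega

lemma b_le_aux {e : ℕ} (hc : 20 ≤ c) (he : 100 ≤ e) :
    2 ^ 40 * CC c ^ 6 * 2 ^ kk e ≤ 1000 * CC c ^ (ms e + 2 - e) := by
  have hk := kk_le (show 9 ≤ e by omega)
  have h1 := CC_ge hc
  have h2 : 2 ^ 40 ≤ CC c ^ 2 := by
    calc 2 ^ 40 = (2 ^ 20) ^ 2 := by norm_num
      _ ≤ _ := Nat.pow_le_pow_left h1 2
  have h5 := Pool.Agent.Helper29.E3.three_le_ms e
  have h3 : 2 ^ kk e ≤ CC c ^ (ms e + 2 - e - 8) := by
    calc 2 ^ kk e ≤ 2 ^ (20 * (ms e + 2 - e - 8)) :=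
          Nat.pow_le_pow_right (by norm_num) (by omega)
      _ = (2 ^ 20) ^ (ms e + 2 - e - 8) := by rw [pow_mul]
      _ ≤ _ := Nat.pow_le_pow_left h1 _
  calc 2 ^ 40 * CC c ^ 6 * 2 ^ kk e ≤ CC c ^ 2 * CC c ^ 6 * CC c ^ (ms e + 2 - e - 8) :=
        Nat.mul_le_mul (Nat.mul_le_mul_right _ h2) h3
    _ = CC c ^ (ms e + 2 - e) := by rw [← pow_add, ← pow_add]; congr 1; omega
    _ ≤ _ := Nat.le_mul_of_pos_left _ (by norm_num)

/-! ### lists -/

section lists

variable {e : ℕ}

lemma locT_card (hc : 20 ≤ c) (hS : SdOK Sd) (he : 40 ≤ e) {q : Finset ℕ}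
    (hq : q ∈ Fam2 c Sd e) : ((loc2 c Sd e).1 ∩ q).card ≤ Bt (CC c ^ (e + 1)) (th c e) :=
  T_Fam2t (TK := fun _ => ∅) hc hS he hq

lemma locH_card (hc : 20 ≤ c) (hS : SdOK Sd) (he : 40 ≤ e) {q : Finset ℕ}
    (hq : q ∈ Fam1 c Sd e) : ((loc1 c Sd e).1 ∩ q).card ≤ Bt (hh c e) (th c e) :=
  T_Fam1t (TK := fun _ => ∅) hc hS he hq

/-- number of pairs with a prescribed sum -/
lemma pairs_card {L B : ℕ} {T : Finset ℕ} (h : Mult L B T T) (ν : ℕ) :
    ((T ×ˢ T).filter (fun p => p.1 + p.2 ≡ ν [MOD 2 ^ L])).card ≤ B := by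
  refine le_trans (card_le_card ?_) (h (ν % 2 ^ L))
  intro p hp
  rw [mem_filter] at hp ⊢
  exact ⟨hp.1, hp.2⟩

lemma pairs_inj {L : ℕ} {T : Finset ℕ} (hT : ∀ t ∈ T, t < 2 ^ L) {ν : ℕ} {p p' : ℕ × ℕ}
    (hp : p ∈ (T ×ˢ T).filter (fun p => p.1 + p.2 ≡ ν [MOD 2 ^ L]))
    (hp' : p' ∈ (T ×ˢ T).filter (fun p => p.1 + p.2 ≡ ν [MOD 2 ^ L]))
    (h : p.1 = p'.1 ∨ p.2 = p'.2) : p = p' := by
  rw [mem_filter, mem_product] at hp hp'
  have h1 := hp.2.trans hp'.2.symm
  rcases h with h | h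
  · rw [h] at h1
    have h2 := Nat.ModEq.add_left_cancel' _ h1
    exact Prod.ext h (h2.eq_of_lt_of_lt (hT _ hp.1.2) (hT _ hp'.1.2))
  · rw [h] at h1
    have h2 := Nat.ModEq.add_right_cancel' _ h1
    exact Prod.ext (h2.eq_of_lt_of_lt (hT _ hp.1.1) (hT _ hp'.1.1)) h

lemma pairs_symm {L : ℕ} {T : Finset ℕ} {ν : ℕ} {p : ℕ × ℕ}
    (hp : p ∈ (T ×ˢ T).filter (fun p => p.1 + p.2 ≡ ν [MOD 2 ^ L])) :
    p.swap ∈ (T ×ˢ T).filter (fun p => p.1 + p.2 ≡ ν [MOD 2 ^ L]) := by
  rw [mem_filter, mem_product] at hp ⊢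
  exact ⟨⟨hp.1.2, hp.1.1⟩, by rw [Prod.fst_swap, Prod.snd_swap, add_comm]; exact hp.2⟩

end lists

/-! ### the grid -/

section grid

variable {K1 K : ℕ}

open Pool.Agent.Helper29.E3 (gridL sb_eq_gs Ld_pos)

/-- from a grid point to a later grid point -/
lemma iter_nx (hc : 10 ≤ c) (y : ℕ) (hy : sb c y = y) (n : ℕ) : ∀ x : ℕ, y - x ≤ n → x ≤ y →
    8 ≤ ep c x → sb c x = x → ∃ m, y = (fun s => s + Ld c s)^[m] x := by
  induction n with
  | zero =>
    intro x hn hxy _ _
    exact ⟨0, by simp only [Function.iterate_zero, id]; omega⟩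
  | succ n ih =>
    intro x hn hxy h8 hx
    rcases Nat.eq_or_lt_of_le hxy with rfl | hlt
    · exact ⟨0, rfl⟩
    have g := gridL c hc
    have h1 : x + Ld c x ≤ y := g.add_le_of_lt hc (by omega) h8 hx hy hlt
    have h2 : sb c (x + Ld c x) = x + Ld c x := g.gs_next hc h8 hx
    have hp := Ld_pos c x
    have h3 : ep c x ≤ ep c (x + Ld c x) := Pool.Agent.Helper29.E3.ep_mono (by omega)
    obtain ⟨m, hm⟩ := ih (x + Ld c x) (by omega) h1 (by omega) h2
    exact ⟨m + 1, by rw [Function.iterate_succ_apply]; exact hm⟩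

lemma zb_mono' {t t' : ℕ} (hb : Big c t) (h : t ≤ t') : zb c t ≤ zb c t' := by
  have hc := hb.hc
  have T := Pool.Agent.Helper29.E3.topOK hb
  have g := gridL c hc
  have h10 := hb.ht
  have p1 := Ld_pos c (wn c t)
  have p2 := Ld_pos c (zb c t)
  obtain ⟨a1, a2⟩ := T.wn1
  obtain ⟨b1, b2⟩ := T.zb1
  have hw := T.wbz
  have h1 : sb c t ≤ sb c t' := by
    have h2 := (T.ep t (by have := T.sbt.1; omega) le_rfl).1
    exact g.gs_mono hc (by omega) (by omega) h
  have h2 : wn c t ≤ wn c t' := by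
    have h2 := (T.ep (sb c t - 1) (by omega) (by have := T.sbt.1; omega)).1
    exact g.gs_mono hc (s := sb c t - 1) (s' := sb c t' - 1) (by omega) (by omega) (by omega)
  have h3 := (T.ep (wn c t - 1) (by omega) (by have := T.sbt.1; omega)).1
  exact g.gs_mono hc (s := wn c t - 1) (s' := wn c t' - 1) (by omega) (by omega) (by omega)

end grid

/-! ### the instance -/

section inst

variable {K1 : ℕ}

open Pool.Agent.Helper29.E3 (gridL Ld_pos epo_mono ep_mono topOK)

/-- the hypotheses on the small cells -/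
def SdHyp (c K1 : ℕ) (Sd : ℕ → Finset ℕ) : Prop :=
  SdOK Sd ∧ ∀ e, epo c K1 ≤ e → SdOk Sd (ll c e)

lemma pow_e_le {e E : ℕ} (h : e ≤ E + 1) : CC c ^ (e + 1) ≤ CC c ^ (E + 2) :=
  Nat.pow_le_pow_right (CC_pos c) (by omega)

lemma hh_le {K e : ℕ} (hb : BigK c K1) (hK : K1 ≤ K) (h1 : epo c K ≤ e) : hh c e ≤ CC c ^ e := by
  have h2 := (hb.big.mono hK).Hd_dvd h1
  exact Nat.le_of_dvd (by have := one_le_X c e; omega) h2

/-- the thinned bounds of the epochs `e ≤ E + 1` -/
lemma Bt_le_E {e E X : ℕ} (h : e ≤ E + 1) (hX : X ≤ CC c ^ (e + 1)) :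
    Bt X (th c e) ≤ 1000 * CC c ^ (ms E + 2 - E) := by
  refine (Bt_le hX).trans (Nat.mul_le_mul_left _ (Nat.pow_le_pow_right (CC_pos c) ?_))
  have h1 := ax_mono h
  have h2 := ax_succ E
  have h3 := Pool.Agent.Helper29.E3.le_ms e
  have h4 := Pool.Agent.Helper29.E3.le_ms (E + 1)
  omega

/-- sizes of the lists of one scale -/
lemma lf1_mem {K : ℕ} (hb : BigK c K1) (hT : TsHyp c K1) (hS : SdHyp c K1 Sd) (hK : K1 ≤ K)
    {Q : Finset ℕ} (hQ : Q ∈ lf1 c Sd (tsL (layL c K))) :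
    Q.card ≤ 1000 * CC c ^ (ms (epo c K) + 2 - epo c K) := by
  have hE := hb.epo hK
  have hep := ep_le_epo c K
  cases hts : tsL (layL c K) with
  | none => rw [hts] at hQ; simp [lf1] at hQ
  | W e =>
    obtain ⟨h1, h2⟩ := hT.W K hK e hts
    rw [hts] at hQ
    simp only [lf1, mem_image] at hQ
    obtain ⟨q, hq, rfl⟩ := hQ
    exact (locT_card hb.c20 hS.1 h1 hq).trans (Bt_le_E (by omega) le_rfl)
  | H e =>
    obtain ⟨h1, h2⟩ := hT.H K hK e hts
    rw [hts] at hQ
    simp only [lf1, mem_image] at hQ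
    obtain ⟨q, hq, rfl⟩ := hQ
    exact (locH_card hb.c20 hS.1 (by omega) hq).trans (Bt_le_E (by omega)
      ((hh_le hb hK h1).trans (Nat.pow_le_pow_right (CC_pos c) (by omega))))

lemma lf1_card {K : ℕ} (hb : BigK c K1) (hT : TsHyp c K1) (hK : K1 ≤ K) :
    (lf1 c Sd (tsL (layL c K))).card ≤ 2 ^ (153 * CC c ^ (epo c K + 2)) := by
  have hE := hb.epo hK
  have hep := ep_le_epo c K
  have hX := one_le_X c (epo c K + 2)
  cases hts : tsL (layL c K) with
  | none => simp only [lf1, card_empty]; exact Nat.zero_le _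
  | W e =>
    obtain ⟨h1, h2⟩ := hT.W K hK e hts
    simp only [lf1]
    refine card_image_le.trans ((card_Fam2 hb.c20 h1).trans ?_)
    refine Nat.pow_le_pow_right (by norm_num) ?_
    exact Nat.mul_le_mul (by norm_num) (pow_e_le (by omega))
  | H e =>
    obtain ⟨h1, h2⟩ := hT.H K hK e hts
    simp only [lf1]
    refine card_image_le.trans ((card_Fam1 e).trans ?_)
    refine Nat.pow_le_pow_right (by norm_num) ?_
    have h3 := hh_le hb hK h1
    have h4 : CC c ^ e ≤ CC c ^ (epo c K + 2) := Nat.pow_le_pow_right (CC_pos c) (by omega)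
    omega

/-- sizes of the lists of two scales -/
lemma lf2_mem {K K' : ℕ} (hb : BigK c K1) (hT : TsHyp c K1) (hS : SdHyp c K1 Sd) (hK : K1 ≤ K)
    {L : Finset (ℕ × ℕ)} (hL : L ∈ lf2 c Sd (tsL (layL c K)) (tsL (layL c K'))) :
    L.card ≤ 1000 * CC c ^ (ms (epo c K) + 2 - epo c K) ∧
      (∀ p ∈ L, ∀ p' ∈ L, (p.1 = p'.1 ∨ p.2 = p'.2) → p = p') ∧ ∀ p ∈ L, p.swap ∈ L := by
  have hE := hb.epo hK
  have hep := ep_le_epo c K
  cases hts : tsL (layL c K) with
  | none => rw [hts] at hL; simp [lf2] at hL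
  | W e =>
    obtain ⟨h1, h2⟩ := hT.W K hK e hts
    cases hts' : tsL (layL c K') with
    | none => rw [hts, hts'] at hL; simp [lf2] at hL
    | H e' => rw [hts, hts'] at hL; simp [lf2] at hL
    | W e' =>
      rw [hts, hts'] at hL
      simp only [lf2, mem_image] at hL
      obtain ⟨ν, -, rfl⟩ := hL
      have h := loc2_ok hb.c20 h1 hS.1
      refine ⟨?_, fun p hp p' hp' => pairs_inj h.T_lt hp hp', fun p hp => pairs_symm hp⟩
      exact (pairs_card (loc2_ok hb.c20 h1 hS.1).TTt ν).trans (Bt_le_E (by omega) le_rfl)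
  | H e =>
    obtain ⟨h1, h2⟩ := hT.H K hK e hts
    cases hts' : tsL (layL c K') with
    | none => rw [hts, hts'] at hL; simp [lf2] at hL
    | W e' => rw [hts, hts'] at hL; simp [lf2] at hL
    | H e' =>
      rw [hts, hts'] at hL
      simp only [lf2, mem_image] at hL
      obtain ⟨ν, -, rfl⟩ := hL
      have h := loc1_okH hb.c20 (show 40 ≤ e by omega) hS.1
      refine ⟨?_, fun p hp p' hp' => pairs_inj h.T_lt hp hp', fun p hp => pairs_symm hp⟩
      exact (pairs_card h.TTt ν).trans (Bt_le_E (by omega)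
        ((hh_le hb hK h1).trans (Nat.pow_le_pow_right (CC_pos c) (by omega))))

lemma lf2_card {K K' : ℕ} (hb : BigK c K1) (hT : TsHyp c K1) (hK : K1 ≤ K) :
    (lf2 c Sd (tsL (layL c K)) (tsL (layL c K'))).card ≤ 2 ^ (153 * CC c ^ (epo c K + 2)) := by
  have hE := hb.epo hK
  have hep := ep_le_epo c K
  cases hts : tsL (layL c K) with
  | none => simp only [lf2, card_empty]; exact Nat.zero_le _
  | W e =>
    obtain ⟨h1, h2⟩ := hT.W K hK e hts
    cases hts' : tsL (layL c K') with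
    | none => simp only [lf2, card_empty]; exact Nat.zero_le _
    | H e' => simp only [lf2, card_empty]; exact Nat.zero_le _
    | W e' =>
      simp only [lf2]
      refine card_image_le.trans ?_
      rw [card_range]
      refine Nat.pow_le_pow_right (by norm_num) ?_
      have h4 : CC c ^ e ≤ CC c ^ (epo c K + 2) := Nat.pow_le_pow_right (CC_pos c) (by omega)
      omega
  | H e =>
    obtain ⟨h1, h2⟩ := hT.H K hK e hts
    cases hts' : tsL (layL c K') with
    | none => simp only [lf2, card_empty]; exact Nat.zero_le _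
    | W e' => simp only [lf2, card_empty]; exact Nat.zero_le _
    | H e' =>
      simp only [lf2]
      refine card_image_le.trans ?_
      rw [card_range]
      refine Nat.pow_le_pow_right (by norm_num) ?_
      have h3 := hh_le hb hK h1
      have h4 : CC c ^ e ≤ CC c ^ (epo c K + 2) := Nat.pow_le_pow_right (CC_pos c) (by omega)
      omega

lemma X_mono {K K' : ℕ} (h : K' ≤ K) : CC c ^ (epo c K' + 2) ≤ CC c ^ (epo c K + 2) :=
  Nat.pow_le_pow_right (CC_pos c) (by have := epo_mono (c := c) h; omega)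

lemma AX_mono {K K' : ℕ} (h : K' ≤ K) :
    CC c ^ (ms (epo c K') + 2 - epo c K') ≤ CC c ^ (ms (epo c K) + 2 - epo c K) :=
  Nat.pow_le_pow_right (CC_pos c) (ax_mono (epo_mono (c := c) h))

/-- **the instance satisfies the hypotheses** -/
theorem geoOk (hb : BigK c K1) (hT : TsHyp c K1) (hS : SdHyp c K1 Sd) : (geo c K1 Sd).Ok := by
  have hc := hb.c20
  have hc10 : 10 ≤ c := by omega
  have g := gridL c hc10
  have hbig : ∀ K, K1 ≤ K → Big c K := fun K hK => hb.big.mono hK
  have hnx : ∀ s, (geo c K1 Sd).nx s = s + Ld c s := fun _ => rfl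
  have hw : ∀ K, K1 ≤ K → (geo c K1 Sd).w K = wn c K := fun K hK => (topOK (hbig K hK)).zb1.1
  have hwx : ∀ K, K1 ≤ K → (geo c K1 Sd).nx ((geo c K1 Sd).w K) = sb c K := by
    intro K hK
    rw [hw K hK, hnx]
    exact (topOK (hbig K hK)).wn1.1
  have hle : ∀ K, K1 ≤ K → ∀ s, zb c K ≤ s → epo c K ≤ ep c s := by
    intro K hK s hs
    have T := topOK (hbig K hK)
    have h1 := (T.ep (zb c K) T.wbz (by
      have := (hbig K hK).zb_le; omega)).1
    exact h1.trans (ep_mono hs)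
  have h100 : ∀ K, K1 ≤ K → 100 ≤ epo c K := fun K hK => hb.epo hK
  have hlist1 : ∀ K K', K1 ≤ K' → K' ≤ K → ∀ L ∈ (geo c K1 Sd).LF K K',
      L.card ≤ 1000 * CC c ^ (ms (epo c K) + 2 - epo c K) := by
    intro K K' h1 h2 L hL
    have hK : K1 ≤ K := h1.trans h2
    have hX := one_le_X c (ms (epo c K) + 2 - epo c K)
    unfold Geo.LF at hL
    split_ifs at hL with q1 q2 q3
    · exact (lf2_mem hb hT hS hK hL).1
    · obtain ⟨Q, hQ, rfl⟩ := mem_image.mp hL
      rw [card_product, card_singleton, mul_one]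
      exact lf1_mem hb hT hS hK hQ
    · obtain ⟨Q, hQ, rfl⟩ := mem_image.mp hL
      rw [card_product, card_singleton, one_mul]
      exact (lf1_mem hb hT hS h1 hQ).trans (Nat.mul_le_mul_left _ (AX_mono h2))
    · rw [mem_singleton] at hL
      rw [hL, card_singleton]
      omega
  have hlist2 : ∀ K K', K1 ≤ K' → K' ≤ K → ((geo c K1 Sd).LF K K').card ≤
      2 ^ (153 * CC c ^ (epo c K + 2)) := by
    intro K K' h1 h2
    have hK : K1 ≤ K := h1.trans h2
    have hX := one_le_X c (epo c K + 2)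
    unfold Geo.LF
    split_ifs with q1 q2 q3
    · exact lf2_card hb hT hK
    · exact card_image_le.trans (lf1_card hb hT hK)
    · refine card_image_le.trans ((lf1_card hb hT h1).trans ?_)
      exact Nat.pow_le_pow_right (by norm_num) (Nat.mul_le_mul_left _ (X_mono h2))
    · rw [card_singleton]
      exact Nat.one_le_two_pow
  exact
    { lo := fun K hK => by
        rw [hwx K hK]
        exact (topOK (hbig K hK)).sbt.1
      hi := fun K hK => by
        rw [hwx K hK, hnx]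
        have T := topOK (hbig K hK)
        obtain ⟨-, h2, h3⟩ := T.sbt
        have h4 : Ld c (sb c K) = Ld c K := by
          have h5 := (T.ep K (by have := (hbig K hK).zb_le; have := T.wbz; omega) le_rfl).1
          have h6 := h100 K hK
          show ll c (ep c (sb c K)) = ll c (ep c K)
          rw [show ep c (sb c K) = ep c K from g.ep_gs hc10 (by omega) (by omega)]
        rw [h4]
        exact h2
      cells := fun K K' hn => by
        obtain ⟨h1, h2, h3⟩ := hn
        have hK' : K1 ≤ K' := h1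
        have T := topOK (hbig K (hK'.trans h2))
        have T' := topOK (hbig K' hK')
        have h4 := zb_mono' (hbig K' hK') h2
        have h5 := hle K' hK' (zb c K') le_rfl
        have h6 := h100 K' hK'
        exact iter_nx hc10 (zb c K) T.zb1.2 _ (zb c K') le_rfl h4 (by omega) T'.zb1.2
      sd := fun K s hK hs => hS.2 _ ((epo_mono hK).trans (hle K hK s hs))
      sdO := fun K hK => by
        have T := topOK (hbig K hK)
        obtain ⟨h1, h2⟩ := hT.omle K hK
        exact hS.2 _ ((epo_mono hK).trans (T.ep _ h1 h2).1)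
      lO := fun K K' hn h => by
        show Ld c (om c K) = Ld c (om c K')
        rw [hT.om K K' hn.1 hn.2.1 hn.2.2 h]
      ln_low := fun K s hK hs => by
        have h1 := ll_mono_all hc10 (hle K hK s hs)
        have h2 := Nat.mul_div_le (ll c (epo c K)) 8
        exact h2.trans h1
      ln_high := fun K s hK hs => ll_mono_all hc10 ((ep_mono hs).trans (ep_le_epo c K))
      lO_low := fun K hK => by
        have T := topOK (hbig K hK)
        obtain ⟨h1, h2⟩ := hT.omle K hK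
        have h3 := ll_mono_all hc10 (T.ep _ h1 h2).1
        have h4 := Nat.mul_div_le (ll c (epo c K)) 8
        exact h4.trans h3
      lO_high := fun K hK => by
        obtain ⟨h1, h2⟩ := hT.omle K hK
        exact ll_mono_all hc10 ((ep_mono h2).trans (ep_le_epo c K))
      g_pos := fun K _ => by
        show 0 < gth c K
        unfold gth Gq
        positivity
      g_le := fun K hK => by
        show gth c K ≤ 2 ^ ll c (epo c K + 1)
        have h1 := d_big hc (h100 K hK)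
        have h2 := ll_mono_all hc10 (Nat.le_succ (epo c K))
        have h3 : gth c K ≤ 2 ^ (c * (epo c K + 2)) := by
          unfold gth Gq
          refine Nat.pow_le_pow_right (by norm_num) ?_
          have : c * (epo c K - 1 - 1) ≤ c * (epo c K + 2) := Nat.mul_le_mul_left _ (by omega)
          omega
        refine h3.trans (Nat.pow_le_pow_right (by norm_num) ?_)
        have h4 : c * (epo c K + 2) ≤ (c + 1) * (epo c K + 100) := by nlinarith
        have h5 := Nat.div_le_self (ll c (epo c K)) 8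
        have h6 : ll c (epo c K).succ = ll c (epo c K + 1) := rfl
        omega
      card_LF := fun K K' hn => hlist2 K K' hn.1 hn.2.1
      card_LF1 := fun K hK _ => lf1_card hb hT hK
      card_mem := fun K K' hn => hlist1 K K' hn.1 hn.2.1
      card_mem1 := fun K hK _ Q hQ => lf1_mem hb hT hS hK hQ
      inj := fun K K' hn _ _ L hL => (lf2_mem hb hT hS (hn.1.trans hn.2.1) hL).2.1
      symm := fun K hK _ L hL => (lf2_mem hb hT hS hK hL).2.2
      A_mono := fun K K' h => Nat.mul_le_mul_left _ (AX_mono h)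
      b_mono := fun K K' h => Nat.mul_le_mul_left _
        (Nat.pow_le_pow_right (by norm_num) (Pool.Agent.Helper86.E3.kk_mono (epo_mono h)))
      d_mono := fun K K' h => Nat.div_le_div_right (ll_mono_all hc10 (epo_mono h))
      numA := fun K hK => by
        show 153 * CC c ^ (epo c K + 2) + 20 * ll c (epo c K + 1) + 400 ≤
          1000 * CC c ^ (ms (epo c K) + 2 - epo c K) * th c (epo c K)
        rw [mul_assoc, A_mul_th]
        have := l1_small hc (h100 K hK)
        omega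
      numb := fun K hK => by
        show 153 * CC c ^ (epo c K + 2) + 20 * ll c (epo c K + 1) + 400 ≤
          2 ^ 40 * CC c ^ 6 * 2 ^ kk (epo c K) * (ll c (epo c K) / 8)
        have := l1_small hc (h100 K hK)
        have := numb_aux hc (h100 K hK)
        omega
      numd := fun K hK => by
        refine (Nat.mul_le_mul_left _ (Nat.pow_le_pow_right (CC_pos c) ?_)).trans
          (numd_aux hc (h100 K hK))
        have := Pool.Agent.Helper29.E3.ms_le_two (epo c K)
        omega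
      d_pos := fun K hK => by
        show 100 ≤ ll c (epo c K) / 8
        have h1 := d_big hc (h100 K hK)
        nlinarith
      b_pos := fun K hK => by
        show 100 ≤ 2 ^ 40 * CC c ^ 6 * 2 ^ kk (epo c K)
        have h1 := one_le_X c 6
        have h2 : 1 ≤ 2 ^ kk (epo c K) := Nat.one_le_two_pow
        calc 100 ≤ 2 ^ 40 * 1 * 1 := by norm_num
          _ ≤ _ := Nat.mul_le_mul (Nat.mul_le_mul_left _ h1) h2
      b_le := fun K hK => b_le_aux hc (h100 K hK)
      A_low := fun K hK => by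
        show 400 ≤ 1000 * CC c ^ (ms (epo c K) + 2 - epo c K)
        have := one_le_X c (ms (epo c K) + 2 - epo c K)
        omega
      th_le := fun K hK => by
        show th c (epo c K) ≤ ll c (epo c K) / 8
        have h1 := Pool.Agent.Helper29.E3.th_le_ll hc10
          (show 20 ≤ epo c K by have := h100 K hK; omega)
        have h2 : th c (epo c K) ≤ CC c * th c (epo c K) := Nat.le_mul_of_pos_left _ (CC_pos c)
        omega }

end inst

end Pool.Agent.E3S
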