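import Mathlib
import Pool.Agent.Helper86.E3.Desc2
import Pool.Agent.Helper86.E3.Top2
import Pool.Agent.E3S.Above
import Pool.Agent.E3S.Geo

/-!
# E-T (MP_12a1af_nt), phase 3: the last region which is used in far pairs
-/

variable [Pool.Agent.Helper29.E3.EpFn]

set_option autoImplicit false

open Finset

namespace Pool.Agent.E3S

open Pool.Agent.E3 (Rg Chain Reg2 Codes2 layL lay HasDesc2 IsDesc2 isPT2 OccT zoneReg)
open Pool.Agent.Helper29.ETK (CC lg kk Gq)
open Pool.Agent.Helper29.E3 (ep epo gth Ld Hd Wd zb wn sb wb om ll hh Big TopOK)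

/-! ### chains -/

/-- number of the regions with `bot + g ≤ K` -/
def ctN (g K : ℕ) (l : List Rg) : ℕ := (l.filter (fun r => r.bot + g ≤ K)).length

lemma ctN_nil {g K u v : ℕ} : ∀ {l : List Rg}, Chain u l v → K < u + g → ctN g K l = 0
  | [], _, _ => rfl
  | r :: l, h, hu => by
    obtain ⟨h1, h2, h3⟩ := h
    have ih := ctN_nil h3 (show K < r.top + g by omega)
    unfold ctN at ih ⊢
    rw [List.filter_cons_of_neg (by simp only [decide_eq_true_eq]; omega)]
    exact ih

lemma bot_le_of_chain {u v : ℕ} {l : List Rg} (h : Chain u l v) {j : ℕ} {r : Rg}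
    (hr : l[j]? = some r) : u ≤ r.bot := h.above r (List.mem_of_getElem? hr)

/-- the regions with index below `ctN` are low, the others are not -/
lemma ctN_iff {g K : ℕ} : ∀ {l : List Rg} {u v : ℕ}, Chain u l v → ∀ {j : ℕ} {r : Rg},
    l[j]? = some r → (r.bot + g ≤ K ↔ j < ctN g K l)
  | [], _, _, _, j, r, hr => by simp at hr
  | q :: l, u, v, h, j, r, hr => by
    obtain ⟨h1, h2, h3⟩ := h
    by_cases hq : q.bot + g ≤ K
    · have e1 : ctN g K (q :: l) = ctN g K l + 1 := by
        unfold ctN
        rw [List.filter_cons_of_pos (by simpa using hq), List.length_cons]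
      rw [e1]
      cases j with
      | zero =>
        simp only [List.getElem?_cons_zero, Option.some.injEq] at hr
        subst hr
        exact ⟨fun _ => by omega, fun _ => hq⟩
      | succ j =>
        rw [List.getElem?_cons_succ] at hr
        rw [ctN_iff h3 hr]
        omega
    · have e1 : ctN g K (q :: l) = 0 :=
        ctN_nil (u := u) (v := v) ⟨h1, h2, h3⟩ (by omega)
      rw [e1]
      have h4 : u ≤ r.bot := bot_le_of_chain (u := u) (v := v) (l := q :: l) ⟨h1, h2, h3⟩ hr
      constructor
      · intro h5; omega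
      · intro h5; omega

lemma ctN_le (g K : ℕ) (l : List Rg) : ctN g K l ≤ l.length := List.length_filter_le _ _

/-! ### depths -/

section depth

variable {c K : ℕ} {D : Codes2}

/-- the standing assumptions at one scale -/
structure BigOne (c K : ℕ) : Prop where
  c20 : 20 ≤ c
  big : Big c K
  E0 : Pool.Agent.Helper86.E3.E0 c ≤ epo c K

lemma gth_le_Hd (hb : BigOne c K) {e : ℕ} (he : epo c K ≤ e) : 4 * gth c K ≤ hh c e := by
  have hc : 10 ≤ c := hb.big.hc
  have h10 := hb.big.ht
  have h1 := Pool.Agent.Helper29.E3.Gq_le_hh hc (E := epo c K) (e := e) (by omega) (by omega) he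
  have h2 : gth c K ≤ Gq c (epo c K) := Pool.Agent.Helper29.E3.Gq_pred_le hc (by omega)
  have h3 : 4 ≤ CC c ^ 5 := by
    have := CC_ge hb.c20
    calc 4 ≤ CC c := le_trans (by norm_num) this
      _ ≤ CC c ^ 5 := Nat.le_self_pow (by norm_num) _
  calc 4 * gth c K ≤ CC c ^ 5 * Gq c (epo c K) := Nat.mul_le_mul h3 h2
    _ ≤ _ := h1

/-- all regions of the top zone which are not small cells are far below the top -/
lemma depth_top (hb : BigOne c K) {d : Pool.Agent.E3.Top} (hd : OccT c K d)
    (hn : ∀ p, d ≠ .cell p) : d.hi c + 4 * gth c K ≤ K := by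
  obtain ⟨h1, h2, h3⟩ := hd
  have hc : 10 ≤ c := hb.big.hc
  have hep : epo c K ≤ ep c d.lo :=
    Pool.Agent.Helper86.E3.epo_le_ep hc (by have := hb.big.ht; omega) h2
  have h4 := gth_le_Hd hb hep
  have h5 : hh c (ep c d.lo) ≤ CC c ^ ep c d.lo :=
    Nat.le_of_dvd (by have := one_le_X c (ep c d.lo); omega) (hb.big.Hd_dvd hep)
  cases d with
  | T2 b =>
    have h6 := Pool.Agent.Helper86.E3.le_tU c 2 b
    simp only [Pool.Agent.E3.Top.At, Pool.Agent.E3.Top.hi, Pool.Agent.E3.Top.lo,
      Pool.Agent.E3.Top.len] at *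
    have : Wd c b = CC c ^ ep c b := rfl
    omega
  | C2 b =>
    have h6 := Pool.Agent.Helper86.E3.le_tU c 1 b
    simp only [Pool.Agent.E3.Top.At, Pool.Agent.E3.Top.hi, Pool.Agent.E3.Top.lo,
      Pool.Agent.E3.Top.len] at *
    have : Wd c b = CC c ^ ep c b := rfl
    omega
  | mid f =>
    have h6 := Pool.Agent.Helper86.E3.le_tB c 3 f
    simp only [Pool.Agent.E3.Top.At, Pool.Agent.E3.Top.hi, Pool.Agent.E3.Top.lo,
      Pool.Agent.E3.Top.len] at *
    have : Hd c f = hh c (ep c f) := rfl
    omega
  | T1 f =>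
    have h6 := Pool.Agent.Helper86.E3.le_tB c 2 f
    simp only [Pool.Agent.E3.Top.At, Pool.Agent.E3.Top.hi, Pool.Agent.E3.Top.lo,
      Pool.Agent.E3.Top.len] at *
    have : Hd c f = hh c (ep c f) := rfl
    omega
  | C1 f =>
    have h6 := Pool.Agent.Helper86.E3.le_tB c 1 f
    simp only [Pool.Agent.E3.Top.At, Pool.Agent.E3.Top.hi, Pool.Agent.E3.Top.lo,
      Pool.Agent.E3.Top.len] at *
    have : Hd c f = hh c (ep c f) := rfl
    omega
  | cell p => exact absurd rfl (hn p)

/-- small cells are very short -/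
lemma Ld_small (hb : BigOne c K) {s : ℕ} (h1 : epo c K ≤ ep c s) (h2 : s ≤ K) :
    512 * (1024 * Ld c s) ≤ gth c K :=
  Pool.Agent.Helper29.E3.Ld_le_Gq hb.big.hc (by have := hb.big.ht; omega) h1
    ((Pool.Agent.Helper29.E3.ep_mono h2).trans (ep_le_epo c K))

/-- consecutive elements of a chain -/
lemma chain_next : ∀ {l : List Rg} {u v : ℕ}, Chain u l v → ∀ {j : ℕ} {r r' : Rg},
    l[j]? = some r → l[j+1]? = some r' → r.top = r'.bot
  | [], _, _, _, j, r, r', hr, _ => by simp at hr
  | [q], _, _, _, j, r, r', hr, hr' => by simp at hr'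
  | q :: q' :: l, u, v, h, j, r, r', hr, hr' => by
    obtain ⟨h1, h2, h3⟩ := h
    cases j with
    | zero =>
      simp only [List.getElem?_cons_zero, Option.some.injEq] at hr
      simp only [Nat.zero_add, List.getElem?_cons_succ, List.getElem?_cons_zero,
        Option.some.injEq] at hr'
      subst hr hr'
      exact h3.1.symm
    | succ j =>
      rw [List.getElem?_cons_succ] at hr hr'
      exact chain_next h3 hr hr'

lemma getElem?_lay {j : ℕ} {q : Reg2} (h : (layL c K)[j]? = some q) :
    (lay D c K)[j]? = some (q.rg D) := by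
  unfold lay
  rw [List.getElem?_map, h]
  rfl

/-- the lengths of the small cells in the codes -/
lemma top_cell {l p : ℕ} : ((Reg2.cell l p).rg D).top = p + l := rfl

lemma bot_cell {l p : ℕ} : ((Reg2.cell l p).rg D).bot = p := rfl

/-- the far threshold is below the scale -/
lemma pow_epo_le' (hb : BigOne c K) : gth c K ≤ K := by
  have h1 := Pool.Agent.Helper86.E3.pow_epo_le (c := c) (t := K) (by have := hb.big.ht; omega)
  have h2 : gth c K ≤ Gq c (epo c K) :=
    Pool.Agent.Helper29.E3.Gq_pred_le hb.big.hc (by have := hb.big.ht; omega)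
  have h3 := Pool.Agent.Helper86.E3.Gq_le_pow c (epo c K)
  omega

/-- **depth of the regions of far pairs** -/
theorem hct_of (hb : BigOne c K) (hcd : CodeFacts c D.toCodes) (hH : ∀ e, D.H e = hh c e)
    (hok : Pool.Agent.Helper29.E3.KidOK c K)
    (h8 : ∀ d, Pool.Agent.E3.Occ c K d → d.hi c + 2 * gth c K ≤ K)
    (hch : Chain 0 (lay D c K) K) {j : ℕ} {q0 q1 : Reg2} (hj : j ≤ ctN (gth c K) K (lay D c K))
    (hj1 : j + 1 < (layL c K).length)
    (h0 : (Reg2.old (.R 0 0) :: layL c K)[j]? = some q0) (h1 : (layL c K)[j]? = some q1) :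
    2 * (q1.rg D).top + gth c K ≤ 2 * K := by
  have hc : 10 ≤ c := hb.big.hc
  -- regions which are not small cells
  have key : ∀ j q0 q1, j + 1 < (layL c K).length →
      (Reg2.old (.R 0 0) :: layL c K)[j]? = some q0 → (layL c K)[j]? = some q1 →
      (q1.rg D).top + 2 * gth c K ≤ K ∨ ∃ p, q1 = .cell (Ld c p) p ∧ wb c K ≤ p ∧
        p + Ld c p ≤ zb c K := by
    intro j q0 q1 hj1 h0 h1
    rcases Pool.Agent.E3.layL_cases2 hok hc hb.E0 h0 h1 with ⟨d, hd⟩ | ⟨-, h, -⟩
    swap
    · omega
    cases d with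
    | old d =>
      obtain ⟨r0, r1, rfl, rfl, hd⟩ := hd
      left
      have t1 := top_desc hcd.reg hd
      have h2 := h8 d ⟨r0, r1, hd⟩
      show r1.top D.toCodes + 2 * gth c K ≤ K
      rw [t1]
      exact h2
    | top d =>
      obtain ⟨rfl, -, hd⟩ := hd
      by_cases hcell : ∃ p, d = .cell p
      · obtain ⟨p, rfl⟩ := hcell
        exact Or.inr ⟨p, rfl, hd.2.1, hd.2.2⟩
      · left
        have h2 := depth_top hb hd (fun p hp => hcell ⟨p, hp⟩)
        have h3 : ((d.reg c).rg D).top = d.hi c := by
          cases d with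
          | T2 b => rfl
          | C2 b =>
            show b + D.W (ep c b) = b + Wd c b
            rw [hcd.W]; rfl
          | mid f => show f + D.H (ep c f) = f + Hd c f; rw [hH]; rfl
          | T1 f => show f + D.H (ep c f) = f + Hd c f; rw [hH]; rfl
          | C1 f => show f + D.H (ep c f) = f + Hd c f; rw [hH]; rfl
          | cell p => exact absurd ⟨p, rfl⟩ hcell
        rw [h3]
        omega
  have hzK : zb c K ≤ K := by have := hb.big.zb_le; omega
  have hepK : ∀ s, wb c K ≤ s → epo c K ≤ ep c s := fun s hs =>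
    Pool.Agent.Helper86.E3.epo_le_ep hc (by have := hb.big.ht; omega) hs
  rcases key j q0 q1 hj1 h0 h1 with h2 | ⟨p, rfl, hp1, hp2⟩
  · omega
  have l1 := Ld_small hb (hepK p hp1) (by omega)
  rw [top_cell]
  have hmain : p + gth c K ≤ K + gth c K / 16 := by
    rcases Nat.lt_or_ge j (ctN (gth c K) K (lay D c K)) with hlt | hge
    · have h3 := (ctN_iff hch (getElem?_lay h1)).mpr hlt
      rw [bot_cell] at h3
      omega
    · have hjc : j = ctN (gth c K) K (lay D c K) := le_antisymm hj hge
      rcases Nat.eq_zero_or_pos j with h00 | hpos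
      · have h3 := bot_le_of_chain hch (getElem?_lay (D := D) h1)
        rw [h00] at h1
        have h4 : (lay D c K)[0]? = some ((Reg2.cell (Ld c p) p).rg D) := getElem?_lay h1
        have h5 : p = 0 := by
          cases hl : lay D c K with
          | nil => rw [hl] at h4; simp at h4
          | cons r l =>
            rw [hl] at h4 hch
            simp only [List.getElem?_cons_zero, Option.some.injEq] at h4
            have h6 := hch.1
            rw [h4, bot_cell] at h6
            exact h6
        have h6 := pow_epo_le' hb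
        omega
      · obtain ⟨i, rfl⟩ : ∃ i, j = i + 1 := ⟨j - 1, by omega⟩
        have h3 : (layL c K)[i]? = some q0 := by
          rw [List.getElem?_cons_succ] at h0
          exact h0
        obtain ⟨q, hq⟩ : ∃ q, (Reg2.old (.R 0 0) :: layL c K)[i]? = some q := by
          have : i < (Reg2.old (.R 0 0) :: layL c K).length := by
            rw [List.length_cons]; omega
          exact ⟨_, List.getElem?_eq_getElem this⟩
        have h4 := chain_next hch (getElem?_lay (D := D) h3) (getElem?_lay (D := D) h1)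
        rw [bot_cell] at h4
        have h5 := (ctN_iff (g := gth c K) (K := K) hch (getElem?_lay (D := D) h3)).mpr (by omega)
        rcases key i q q0 (by omega) hq h3 with h6 | ⟨p', rfl, hp1', hp2'⟩
        · omega
        · rw [top_cell] at h4
          rw [bot_cell] at h5
          have l2 := Ld_small hb (hepK p' hp1') (by omega)
          omega
  omega

end depth

end Pool.Agent.E3S
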