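import Mathlib
import Pool.Agent.Helper29.E3.Sched

/-!
# E-T (MP_12a1af_nt), phase 3: the numbers of the last step

`c` is the constant of the schedule, `a`, `μ` absolute constants, `b` a constant which may depend on
everything except the scale `K`.
-/

variable [Pool.Agent.Helper29.E3.EpFn]

namespace Pool.Agent.E3S

open Pool.Agent.Helper29.ETK (CC lg)
open Pool.Agent.Helper29.E3 (ep gth th ms)

/-- a constant times a power of the logarithm -/
def plog (b K : ℕ) : ℕ := b * (Nat.log 2 K + 1) ^ b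

/-- bound of the number of regions of the scale `K` -/
def lenF (a b c K : ℕ) : ℕ := a * (lg c K + 2) + b

/-- bound of the number of blocks of all layouts until `K` -/
def mmF (a b c K : ℕ) : ℕ := lenF a b c K + 3

/-- bound of the probability of a common pair at far scales -/
noncomputable def epsF (c K : ℕ) : ℝ := (1 / 2) ^ (gth c K / (16 * CC c))

/-- bound of the number of representations in near scales -/
def nearF (a μ b c K : ℕ) : ℕ := μ ^ lenF a b c K * plog b K * CC c ^ (ms (ep c K) - ep c K)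

/-- lower bound of the number of elements of the scale `K` -/
def cntF (b c K : ℕ) : ℕ := 2 ^ (K / 2 - b * (Nat.log 2 K + 1) ^ 3 * th c (ep c K))

lemma plog_mono {b b' K K' : ℕ} (hb : b ≤ b') (hK : K ≤ K') : plog b K ≤ plog b' K' := by
  unfold plog
  refine Nat.mul_le_mul hb ?_
  calc (Nat.log 2 K + 1) ^ b ≤ (Nat.log 2 K' + 1) ^ b :=
        Nat.pow_le_pow_left (Nat.add_le_add_right (Nat.log_mono_right hK) 1) b
    _ ≤ (Nat.log 2 K' + 1) ^ b' := Nat.pow_le_pow_right (by omega) hb

lemma lg_mono {c K K' : ℕ} (hK : K ≤ K') : lg c K ≤ lg c K' := Nat.log_mono_right hK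

lemma lenF_mono {a b b' c K K' : ℕ} (hb : b ≤ b') (hK : K ≤ K') :
    lenF a b c K ≤ lenF a b' c K' := by
  unfold lenF
  have := lg_mono (c := c) hK
  gcongr

lemma mmF_mono {a b b' c K K' : ℕ} (hb : b ≤ b') (hK : K ≤ K') : mmF a b c K ≤ mmF a b' c K' :=
  Nat.add_le_add_right (lenF_mono hb hK) 3

lemma nearF_mono {a μ b b' c K : ℕ} (hμ : 1 ≤ μ) (hb : b ≤ b') :
    nearF a μ b c K ≤ nearF a μ b' c K := by
  unfold nearF
  exact Nat.mul_le_mul_right _ (Nat.mul_le_mul (Nat.pow_le_pow_right hμ (lenF_mono hb le_rfl))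
    (plog_mono hb le_rfl))

lemma cntF_anti {b b' c K : ℕ} (hb : b ≤ b') : cntF b' c K ≤ cntF b c K := by
  unfold cntF
  refine Nat.pow_le_pow_right (by norm_num) ?_
  have := Nat.mul_le_mul_right (th c (ep c K)) (Nat.mul_le_mul_right ((Nat.log 2 K + 1) ^ 3) hb)
  omega

end Pool.Agent.E3S
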