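import Mathlib
import Pool.Agent.Helper3.E3.LFrame
import Pool.Agent.E3S.FinalDefs

/-!
# E-T (MP_12a1af_nt), phase 3: the final assembly

The order of the choices: the exponent `d`, the absolute constants `a`, `μ`, the constant `c` of the
schedule, the codes, the constant `b`, the first scale `K1`.
-/

variable [Pool.Agent.Helper29.E3.EpFn]

open Finset Filter

namespace Pool.Agent.E3S

open Pool.Agent.E3 (LHyp2 Rg)
open Pool.Agent.E3F (failA)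
open Pool.Agent.ETS (Hash)
open Pool.Agent.Helper29.ETK (CC lg)
open Pool.Agent.Helper29.E3 (gth)

/-- what is proved for one value of the constants -/
def OneC (a μ b c K1 : ℕ) : Prop :=
  ∃ (L : ℕ → List Rg) (nf : ℕ → Finset ℕ) (h0 : ℕ → Hash) (nl ct : ℕ → ℕ),
    LHyp2 L nf h0 nl ct K1 (gth c) (mmF a b c) (epsF c) (nearF a μ b c) (cntF b c)

/-- the bound of the number of representations -/
def repF (near s : ℕ → ℕ) (n : ℕ) : ℕ :=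
  2 * ((Nat.log 2 (Nat.log 2 n - 1) + 1) * max (near (Nat.log 2 n - 1)) (s (Nat.log 2 n - 1)) +
    (Nat.log 2 (Nat.log 2 n) + 1) * max (near (Nat.log 2 n)) (s (Nat.log 2 n)))

/-- the numerical part (helper82) -/
def NumPart (u v a μ : ℕ) : Prop :=
  ∀ d : ℝ, 0 < d → ∃ c1 : ℕ, ∀ c, c1 ≤ c → ∀ b K1 : ℕ, CC c ^ 10 ≤ K1 →
    ∃ (K0 : ℕ) (s : ℕ → ℕ), K1 ≤ K0 ∧
      (∀ Kmax, ∑ K ∈ Icc K0 Kmax, failA (mmF a b c) s (epsF c) K < 1) ∧
      ∃ n0 : ℕ, ∀ n : ℕ, n0 ≤ n → ((repF (nearF a μ b c) s n : ℕ) : ℝ) ≤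
        (Real.log n) ^ (1 - (u : ℝ) / v + d)

/-- the part of the layouts and codes -/
def LayPart (a μ : ℕ) : Prop :=
  ∃ c0 : ℕ, ∀ c, c0 ≤ c → ∃ (b K1 : ℕ), CC c ^ 10 ≤ K1 ∧ OneC a μ b c K1

/-- from dyadic blocks to all `x` (helper32) -/
def ThickPart (u v : ℕ) : Prop :=
  ∀ (A : Set ℕ) (K0 b c : ℕ),
    (∀ K, K0 ≤ K → cntF b c K / (4 * K) - 1 ≤ (A ∩ Set.Ico (2 ^ K) (2 ^ (K + 1))).ncard) →
    ∀ ε : ℝ, 0 < ε → ∀ᶠ x : ℕ in atTop,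
      √(x : ℝ) * Real.exp (-(Real.log x ^ (2 * ((u : ℝ) / v) - 1 + ε))) ≤
        ((A ∩ Set.Iio x).ncard : ℝ)

/-- the final statement -/
def FinalStmt (u v : ℕ) : Prop :=
  ∀ ε : ℝ, 0 < ε → ∃ A : Set ℕ,
    (∀ᶠ n : ℕ in atTop, (({q : ℕ × ℕ | q.1 ∈ A ∧ q.2 ∈ A ∧ q.1 + q.2 = n}.ncard : ℕ) : ℝ) ≤
      (Real.log n) ^ (1 - (u : ℝ) / v + ε)) ∧
    (∀ᶠ x : ℕ in atTop, √(x : ℝ) * Real.exp (-(Real.log x ^ (2 * ((u : ℝ) / v) - 1 + ε))) ≤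
      ((A ∩ Set.Iio x).ncard : ℝ))

lemma lhyp2_mono {L : ℕ → List Rg} {nf : ℕ → Finset ℕ} {h0 : ℕ → Hash} {nl ct : ℕ → ℕ}
    {K0 K1 : ℕ} {g mm : ℕ → ℕ} {ε : ℕ → ℝ} {near cnt : ℕ → ℕ}
    (H : LHyp2 L nf h0 nl ct K1 g mm ε near cnt) (h : K1 ≤ K0) :
    LHyp2 L nf h0 nl ct K0 g mm ε near cnt where
  chain K hK := H.chain K (h.trans hK)
  len2 K hK := H.len2 K (h.trans hK)
  card K hK := H.card K (h.trans hK)
  inj K hK := H.inj K (h.trans hK)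
  nf0 K hK := H.nf0 K (h.trans hK)
  nfl K hK := H.nfl K (h.trans hK)
  ct1 K hK := H.ct1 K (h.trans hK)
  ctb K hK := H.ctb K (h.trans hK)
  gpos := H.gpos
  eps0 := H.eps0
  mm K K' hK := H.mm K K' (h.trans hK)
  cnt K hK := H.cnt K (h.trans hK)
  far K K' hK := H.far K K' (h.trans hK)
  near K K' hK := H.near K K' (h.trans hK)

/-- **The final assembly.** -/
theorem final_of {u v a μ : ℕ} (hN : NumPart u v a μ) (hL : LayPart a μ) (hT : ThickPart u v) :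
    FinalStmt u v := by
  intro ε hε
  obtain ⟨c1, hc1⟩ := hN ε hε
  obtain ⟨c0, hc0⟩ := hL
  obtain ⟨b, K1, hK1, L, nf, h0, nl, ct, hone⟩ := hc0 (max c0 c1) (le_max_left _ _)
  set c := max c0 c1 with hc
  obtain ⟨K0, s, hK10, hfail, n0, hn0⟩ := hc1 c (le_max_right _ _) b K1 hK1
  have hK1pos : 1 ≤ K1 := by
    refine le_trans (Nat.one_le_pow _ _ ?_) hK1
    unfold CC
    positivity
  obtain ⟨A, hA1, hA2⟩ := Pool.Agent.E3.frame_L2 (lhyp2_mono hone hK10) (hK1pos.trans hK10) s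
    hfail
  refine ⟨A, ?_, hT A K0 b c hA2 ε hε⟩
  filter_upwards [eventually_ge_atTop n0] with n hn
  refine le_trans ?_ (hn0 n hn)
  exact_mod_cast hA1 n

end Pool.Agent.E3S
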