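import Mathlib
import Pool.Agent.Helper3.WAR.Main
import Pool.Agent.E3S.Final
import Pool.Agent.E2S.Done

/-!
# E-T (MP_12a1af_nt), phase 3: the constructions of thick sets in one statement
-/

open Filter

namespace Pool.Agent.E3S

/-- a rational number near a real number of `(1 / 2, 2 / 3]` -/
lemma exists_uv {α δ : ℝ} (h1 : 1 / 2 < α) (h2 : α ≤ 2 / 3) (hδ : 0 < δ) :
    ∃ u v : ℕ, 0 < v ∧ v ≤ 2 * u ∧ 3 * u ≤ 2 * v ∧ (u : ℝ) / v ≤ α ∧ α - δ ≤ (u : ℝ) / v := by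
  obtain ⟨q, hq1, hq2⟩ := exists_rat_btwn (show max (1/2) (α - δ) < α from max_lt h1 (by linarith))
  have hq0 : (1/2 : ℝ) < q := (le_max_left _ _).trans_lt hq1
  have hq3 : α - δ < q := (le_max_right _ _).trans_lt hq1
  have hqpos : 0 < q := by
    have : (0:ℝ) < q := by linarith
    exact_mod_cast this
  have hnum : 0 ≤ q.num := Rat.num_nonneg.mpr hqpos.le
  have hcast : ((q.num.toNat : ℕ) : ℝ) / (q.den : ℝ) = q := by
    have e1 : ((q.num.toNat : ℕ) : ℤ) = q.num := Int.toNat_of_nonneg hnum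
    have e2 : ((q.num.toNat : ℕ) : ℝ) = (q.num : ℝ) := by exact_mod_cast e1
    rw [e2]
    exact (Rat.cast_def q).symm
  have hv : (0:ℝ) < q.den := by exact_mod_cast q.den_pos
  refine ⟨q.num.toNat, q.den, q.den_pos, ?_, ?_, ?_, ?_⟩
  · have e1 : (q.den : ℝ) ≤ 2 * (q.num.toNat : ℕ) := by
      have := hq0.le
      rw [← hcast, le_div_iff₀ hv] at this
      linarith
    exact_mod_cast e1
  · have e1 : (3:ℝ) * (q.num.toNat : ℕ) ≤ 2 * q.den := by
      have := hq2.le.trans h2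
      rw [← hcast, div_le_iff₀ hv] at this
      linarith
    exact_mod_cast e1
  · rw [hcast]; exact hq2.le
  · rw [hcast]; exact hq3.le

lemma ev_log : ∀ᶠ n : ℕ in atTop, 1 ≤ Real.log (n : ℝ) := by
  have h : Tendsto (fun n : ℕ => Real.log (n:ℝ)) atTop atTop :=
    Real.tendsto_log_atTop.comp tendsto_natCast_atTop_atTop
  exact h.eventually_ge_atTop 1

/-- the trade-off between the representation function and the loss -/
theorem curve_of (h : ∀ u v : ℕ, 0 < v → v ≤ 2 * u → 3 * u ≤ 2 * v → FinalStmt u v) (ρ : ℝ)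
    (h0 : 0 ≤ ρ) (h1 : ρ ≤ 1 / 2) (ε : ℝ) (hε : 0 < ε) : ∃ (A : Set ℕ) (B : ℝ),
    (∀ᶠ n : ℕ in atTop,
      ({q : ℕ × ℕ | q.1 ∈ A ∧ q.2 ∈ A ∧ q.1 + q.2 = n}.ncard : ℝ) ≤ Real.log n ^ (ρ + ε)) ∧
    ∀ᶠ x : ℕ in atTop, √(x : ℝ) * Real.exp (-(if ρ < 1 / 2 then
      Real.log x ^ (min ((1 - ρ) / 2) (1 - 2 * ρ) + ε)
      else B * Real.log (Real.log x) ^ 3)) ≤ ((A ∩ Set.Iio x).ncard : ℝ) := by
  by_cases hρ : ρ < 1 / 2
  · rcases le_or_gt ρ (1 / 3) with h3 | h3
    · obtain ⟨A, hA⟩ := Pool.Agent.Helper3.WAR.main (α := (1 - ρ) / 2) (by linarith) (by linarith)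
      obtain ⟨h2, h4⟩ := hA ε hε
      refine ⟨A, 0, ?_, ?_⟩
      · have e1 : 1 - 2 * ((1 - ρ) / 2) + ε = ρ + ε := by ring
        rw [e1] at h2
        exact h2
      · simp only [if_pos hρ]
        rw [min_eq_left (by linarith)]
        exact h4
    · obtain ⟨u, v, g1, g2, g3, g4, g5⟩ := exists_uv (α := 1 - ρ) (δ := ε / 2) (by linarith)
        (by linarith) (by linarith)
      obtain ⟨A, h2, h4⟩ := h u v g1 g2 g3 (ε / 2) (by linarith)
      refine ⟨A, 0, ?_, ?_⟩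
      · filter_upwards [h2, ev_log] with n hn hl
        refine hn.trans (Real.rpow_le_rpow_of_exponent_le hl ?_)
        linarith
      · simp only [if_pos hρ]
        rw [min_eq_right (by linarith)]
        filter_upwards [h4, ev_log] with x hx hl
        refine le_trans ?_ hx
        refine mul_le_mul_of_nonneg_left (Real.exp_le_exp.mpr (neg_le_neg ?_)) (Real.sqrt_nonneg _)
        exact Real.rpow_le_rpow_of_exponent_le hl (by linarith)
  · have hρ' : ρ = 1 / 2 := le_antisymm h1 (not_lt.mp hρ)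
    subst hρ'
    obtain ⟨A, B, -, h2, h3⟩ := Pool.Agent.E2S.finalStmt ε hε
    refine ⟨A, B, h2, ?_⟩
    simp only [lt_irrefl, if_false]
    exact h3

end Pool.Agent.E3S
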