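import Mathlib
import Pool.Agent.E3S.Geo
import Pool.Agent.Helper16.E3.NearDefs
import Pool.Agent.Helper83.E3.NearMk2
import Pool.Agent.Helper84.E3.TopOk

/-!
# E-T (MP_12a1af_nt), phase 3: the geometry is connected with the schedule and the codes
-/

variable [Pool.Agent.Helper29.E3.EpFn]

set_option autoImplicit false

open Finset

namespace Pool.Agent.E3S

open Pool.Agent.E3 (QWs QHs Geo SdOk TS tsL layL LF famL famR famB fam0 Link TopZero TopList Dt PH PS PT)
open Pool.Agent.Helper29.ETK (CC lg kk Gq)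
open Pool.Agent.Helper29.E3 (ep epo gth Ld zb wn sb wb om ll hh Big TopOK)
open Pool.Agent.Helper83.ET Pool.Agent.Helper83.E3

variable {c K1 : ℕ} {Sd TK : ℕ → Finset ℕ}

/-- the lists of two T-states are in the families of the geometry -/
lemma mem_LF {K K' : ℕ} (hsame : tsL (layL c K) ≠ .none → tsL (layL c K') ≠ .none →
      tsL (layL c K) = tsL (layL c K')) {L : Finset (ℕ × ℕ)}
    (hL : L ∈ LF (mk2 c Sd TK) (QWs c Sd) (QHs c Sd) (tsL (layL c K)) (tsL (layL c K'))) :
    L ∈ (geo c K1 Sd).LF K K' := by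
  have hLF1 : (geo c K1 Sd).LF1 = fun K => lf1 c Sd (tsL (layL c K)) := rfl
  have hLF2 : (geo c K1 Sd).LF2 = fun K K' => lf2 c Sd (tsL (layL c K)) (tsL (layL c K')) := rfl
  have hisT : ∀ K, tsL (layL c K) ≠ .none → (geo c K1 Sd).isT K := fun _ h => h
  have hisN : ∀ K, tsL (layL c K) = .none → ¬ (geo c K1 Sd).isT K := fun _ h h' => h' h
  unfold Geo.LF
  rw [hLF1, hLF2]
  have one : ∀ {n : ℕ} {T : Finset ℕ}, L ∈ famB T n →
      L ∈ (range (2 ^ n)).image (fun ν => (T ×ˢ T).filter (fun p => p.1 + p.2 ≡ ν [MOD 2 ^ n])) := by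
    intro n T h
    obtain ⟨ν, hν⟩ := h
    rw [mem_image]
    refine ⟨ν % 2 ^ n, mem_range.mpr (Nat.mod_lt _ (by positivity)), ?_⟩
    rw [hν]
    refine filter_congr (fun p _ => ?_)
    unfold Nat.ModEq
    rw [Nat.mod_mod]
  cases h1 : tsL (layL c K) with
  | none =>
    cases h2 : tsL (layL c K') with
    | none =>
      rw [if_neg (hisN _ h1), if_neg (hisN _ h2), mem_singleton]
      rw [h1, h2] at hL
      exact hL
    | W e =>
      rw [if_neg (hisN _ h1), if_pos (hisT _ (by rw [h2]; simp))]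
      rw [h1, h2] at hL
      obtain ⟨q, hq, rfl⟩ := hL
      simp only [h2, lf1, image_image, mem_image]
      exact ⟨q, hq, rfl⟩
    | H e =>
      rw [if_neg (hisN _ h1), if_pos (hisT _ (by rw [h2]; simp))]
      rw [h1, h2] at hL
      obtain ⟨q, hq, rfl⟩ := hL
      simp only [h2, lf1, image_image, mem_image]
      exact ⟨q, hq, rfl⟩
  | W e =>
    cases h2 : tsL (layL c K') with
    | none =>
      rw [if_pos (hisT _ (by rw [h1]; simp)), if_neg (hisN _ h2)]
      rw [h1, h2] at hL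
      obtain ⟨q, hq, rfl⟩ := hL
      simp only [h1, lf1, image_image, mem_image]
      exact ⟨q, hq, rfl⟩
    | W e' =>
      rw [if_pos (hisT _ (by rw [h1]; simp)), if_pos (hisT _ (by rw [h2]; simp))]
      rw [h1, h2] at hL
      simp only [h1, h2, lf2]
      exact one hL
    | H e' =>
      have := hsame (by rw [h1]; simp) (by rw [h2]; simp)
      rw [h1, h2] at this
      simp at this
  | H e =>
    cases h2 : tsL (layL c K') with
    | none =>
      rw [if_pos (hisT _ (by rw [h1]; simp)), if_neg (hisN _ h2)]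
      rw [h1, h2] at hL
      obtain ⟨q, hq, rfl⟩ := hL
      simp only [h1, lf1, image_image, mem_image]
      exact ⟨q, hq, rfl⟩
    | W e' =>
      have := hsame (by rw [h1]; simp) (by rw [h2]; simp)
      rw [h1, h2] at this
      simp at this
    | H e' =>
      rw [if_pos (hisT _ (by rw [h1]; simp)), if_pos (hisT _ (by rw [h2]; simp))]
      rw [h1, h2] at hL
      simp only [h1, h2, lf2]
      exact one hL

/-- **the geometry is connected with the schedule and the codes** -/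
theorem link (hT : TsHyp c K1) {Δ : ℕ → Dt} (hTK : ∀ K, K1 ≤ K → TK K = (Δ K).T) :
    Link c (mk2 c Sd TK) (QWs c Sd) (QHs c Sd) (geo c K1 Sd) Δ where
  ln _ := rfl
  q _ _ := rfl
  Sd := rfl
  lO _ _ := rfl
  g _ := rfl
  isT _ _ := Iff.rfl
  LF K K' hn _ L hL := mem_LF (hT.same K K' hn.1 hn.2.1 hn.2.2) hL
  TK K hK := hTK K hK

/-- the top theorems for a choice of the data -/
theorem topZero_of {G : Geo} (hG : G.Ok) {Δ : ℕ → Dt}
    (hD : ∀ K, G.K0 ≤ K → PH G Δ K ∧ PS G Δ K ∧ PT G Δ K) : TopZero G Δ :=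
  fun _ _ _ hn hq => Pool.Agent.E3.top_zero hG hD hn hq

theorem topList_of {G : Geo} (hG : G.Ok) {Δ : ℕ → Dt}
    (hD : ∀ K, G.K0 ≤ K → PH G Δ K ∧ PS G Δ K ∧ PT G Δ K) : TopList G Δ :=
  fun _ _ _ hn hT hq _ hL μ ν f hf => Pool.Agent.E3.top_list hG hD hn hT hq hL μ ν f hf

end Pool.Agent.E3S
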