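import Mathlib
import Pool.Agent.E3S.Ct
import Pool.Agent.Helper16.E3.Hash
import Pool.Agent.Helper29.E3.Om
import Pool.Agent.E3S.Geo

/-!
# E-T (MP_12a1af_nt), phase 3: the regions with prescribed hash values
-/

variable [Pool.Agent.Helper29.E3.EpFn]

set_option autoImplicit false

open Finset

namespace Pool.Agent.E3S

open Pool.Agent.E3 (Rg Reg2 Codes2 layL lay body bodyTo zoneReg nf idxOm body_om)
open Pool.Agent.Helper29.ETK (CC lg kk Gq)
open Pool.Agent.Helper29.E3 (ep epo gth Ld zb wn sb wb om ll hh Big TopOK OmAt)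

variable {c K : ℕ}

lemma layL_length (c K : ℕ) : (layL c K).length = (body c K).length + 1 := by
  unfold layL
  rw [List.length_append, List.length_singleton]

/-- Omega in the layout -/
lemma body_split_om (hb : Big c K) :
    body c K = bodyTo c K 0 (om c K) ++
      ([.cell (Ld c (om c K)) (om c K)] ++ bodyTo c K (om c K + Ld c (om c K)) (zb c K)) := by
  have T := Pool.Agent.Helper29.E3.topOK hb
  have h := Big.om_at hb
  have h1 := h.top
  have hz : zb c K ≤ K := by have := hb.zb_le; omega
  have h2 := (T.ep (om c K) h.wb (by omega)).1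
  have h3 := hb.ht
  have h4 := body_om (w := zb c K) hb.hc T h (by omega) (by omega) le_rfl
  exact h4

lemma idx_lt (hb : Big c K) : idxOm c K < (body c K).length := by
  rw [body_split_om hb, List.length_append]
  unfold idxOm
  simp

lemma om_pos' (hb : Big c K) (h0 : 0 < wb c K) : 0 < om c K := by
  have h := Big.om_at hb
  have := h.wb
  omega

lemma idx_pos (hb : Big c K) (h0 : 0 < wb c K) : 0 < idxOm c K := by
  have h1 := om_pos' hb h0
  unfold idxOm
  rw [List.length_pos_iff]
  intro h2
  unfold bodyTo at h2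
  rw [List.flatMap_eq_nil_iff] at h2
  have h3 := Pool.Agent.ETS.runs_of_lt (φ := Pool.Agent.Helper29.E3.kid2 c K) h1
  have h4 := h2 _ (by rw [h3]; exact List.mem_cons_self)
  revert h4
  generalize hk : (Pool.Agent.Helper29.E3.kid2 c K 0) = k
  cases k with
  | old k => 
    cases k <;> simp [Pool.Agent.E3.toRegs2, Pool.Agent.E3.toRegs]
    split_ifs <;> simp
  | _ => simp [Pool.Agent.E3.toRegs2]

lemma nf_zero (hb : Big c K) (h0 : 0 < wb c K) : 0 ∉ nf c K := by
  have h1 := idx_pos hb h0
  have h2 := idx_lt hb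
  unfold nf
  rw [mem_insert, mem_singleton]
  omega

lemma nf_last (c K : ℕ) : (layL c K).length - 1 ∈ nf c K := by
  unfold nf
  rw [mem_insert, mem_singleton, layL_length]
  right; omega

lemma zone_len_le (hc : 20 ≤ c) (hb : Big c K) : K - zb c K ≤ 3 * ll c (epo c K + 1) := by
  have T := Pool.Agent.Helper29.E3.topOK hb
  have h1 := T.zb1.1
  have h2 := T.wn1.1
  have h3 := T.sbt
  have hm := ll_mono_all (c := c) (by omega)
  have h4 : ∀ s, s ≤ K → Ld c s ≤ ll c (epo c K + 1) := fun s hs =>
    hm ((Pool.Agent.Helper29.E3.ep_mono hs).trans (ep_le_epo c K))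
  have a1 := h4 (zb c K) (by omega)
  have a2 := h4 (wn c K) (by omega)
  have a3 := h4 K le_rfl
  omega

lemma nf_len (hc : 20 ≤ c) (hb : Big c K) (D : Codes2) :
    ∑ j ∈ nf c K, ((lay D c K)[j]?).elim 0 Rg.len ≤ 5 * ll c (epo c K + 1) := by
  have h1 := idx_lt hb
  have hz := zone_len_le hc hb
  have hm := ll_mono_all (c := c) (by omega)
  have T := Pool.Agent.Helper29.E3.topOK hb
  have hom := Big.om_at hb
  have hz : zb c K ≤ K := by have := hb.zb_le; omega
  have htop := hom.top
  have hL : Ld c (om c K) ≤ ll c (epo c K + 1) :=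
    hm ((Pool.Agent.Helper29.E3.ep_mono (by omega)).trans (ep_le_epo c K))
  unfold nf
  rw [sum_pair (by omega)]
  have e1 : (lay D c K)[idxOm c K]? = some ((Reg2.cell (Ld c (om c K)) (om c K)).rg D) := by
    unfold lay layL
    rw [List.getElem?_map, body_split_om hb]
    unfold idxOm
    rw [List.append_assoc, List.getElem?_append_right le_rfl, Nat.sub_self]
    rfl
  have e2 : (lay D c K)[(body c K).length]? = some ((zoneReg c K).rg D) := by
    unfold lay layL
    rw [List.getElem?_map, List.getElem?_append_right le_rfl, Nat.sub_self]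
    rfl
  rw [e1, e2]
  have e3 : ((Reg2.cell (Ld c (om c K)) (om c K)).rg D).len = Ld c (om c K) := by
    show om c K + Ld c (om c K) - om c K = _
    omega
  have e4 : ((zoneReg c K).rg D).len = K - zb c K := rfl
  simp only [Option.elim]
  rw [e3, e4]
  omega

end Pool.Agent.E3S
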