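import Mathlib
import Pool.Agent.E3S.Assembly
import Pool.Agent.E3S.Far4
import Pool.Agent.E3S.Link
import Pool.Agent.E3S.Nf
import Pool.Agent.Helper29.E3.TsH
import Pool.Agent.Helper29.E3.NearT
import Pool.Agent.Helper16.E3.NearAll
import Pool.Agent.Helper86.E3.FarPT
import Pool.Agent.Helper86.E3.TopHyp
import Pool.Agent.Helper99.E3.NumNear
import Pool.Agent.Helper99.E3.FarKin
import Pool.Agent.Helper82.E3.Num
import Pool.Agent.Helper32.E3.Good
import Pool.Agent.Helper32.E3.Size3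
import Pool.Agent.Helper32.E3.Thick
import Pool.Agent.Helper70.E3.TK
import Pool.Agent.Helper41.E3.SidOk

/-!
# E-T (MP_12a1af_nt), phase 3: the instance
-/

variable [Pool.Agent.Helper29.E3.EpFn]

set_option autoImplicit false

open Finset

namespace Pool.Agent.E3S

open Pool.Agent.ETS (Hash)
open Pool.Agent.E3 (Rg Chain Reg2 Codes2 layL lay body OKh Vs val Sid QWs QHs near_all At Geo)
open Pool.Agent.Helper29.ETK (CC lg kk Gq)
open Pool.Agent.Helper29.E3 (ep epo gth Ld zb wn sb wb om ll hh Big TopOK)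
open Pool.Agent.Helper83.ET Pool.Agent.Helper83.E3
open Pool.Agent.Helper86.E3 (E0)
open Pool.Agent.Helper70.E3 (DtOk TKof)

/-! ### the first scale -/

/-- index of the epoch of the first scale -/
def Nfirst (c : ℕ) : ℕ := E0 c + 2 ^ (4 * c) + 1000

/-- the first scale -/
def Kfirst (c : ℕ) : ℕ := CC c ^ (2 * Nfirst c + 4)

lemma le_Nfirst (c : ℕ) : E0 c ≤ Nfirst c ∧ 2 ^ (4 * c) ≤ Nfirst c ∧ 1000 ≤ Nfirst c := by
  unfold Nfirst
  have : 0 < 2 ^ (4 * c) := by positivity
  omega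

lemma epo_first {c : ℕ} (hc : 1 ≤ c) : Nfirst c ≤ epo c (Kfirst c) := by
  unfold Kfirst
  rw [epo_pow hc]
  exact Pool.Agent.Helper29.E3.le_epf_of (by omega)

lemma kk_big {c e : ℕ} (h : 2 ^ (4 * c) ≤ e) : 4 * c ≤ kk e := by
  unfold kk
  by_contra hn
  have h1 : Nat.clog 2 (8 * (3 * e + 10)) ≤ 4 * c := by omega
  have h2 := (Nat.clog_le_iff_le_pow (by norm_num)).mp h1
  omega

lemma big_first {c : ℕ} (hc : 20 ≤ c) : Big c (Kfirst c) where
  hc := by omega
  ht := by
    have := epo_first (c := c) (by omega)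
    have := le_Nfirst c
    omega
  hk := by
    have := epo_first (c := c) (by omega)
    have h2 : 2 ^ (4 * c) ≤ epo c (Kfirst c) := by have := le_Nfirst c; omega
    have := kk_big h2
    omega

lemma bigK_first {c : ℕ} (hc : 20 ≤ c) : BigK c (Kfirst c) where
  c20 := hc
  big := big_first hc
  e100 := by
    have := epo_first (c := c) (by omega)
    have := le_Nfirst c
    omega

lemma pow_first {c n : ℕ} (h : n ≤ 2 * Nfirst c + 4) : CC c ^ n ≤ Kfirst c :=
  Nat.pow_le_pow_right (CC_pos c) h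

section

variable {c : ℕ}

lemma first_facts (hc : 20 ≤ c) {K : ℕ} (hK : Kfirst c ≤ K) :
    BigOne c K ∧ OneK c 40 K ∧ 2 ^ (4 * c) ≤ epo c K ∧ 100 ≤ epo c K ∧ CC c ^ 100 ≤ K ∧
      4 * c ≤ kk (epo c K) := by
  have hb := (big_first hc).mono hK
  have h1 := epo_first (c := c) (by omega)
  have h2 := Pool.Agent.Helper29.E3.epo_mono (c := c) hK
  have h0 := le_Nfirst c
  have h3 : 2 ^ (4 * c) ≤ epo c K := by omega
  refine ⟨⟨hc, hb, ?_⟩, Pool.Agent.Helper29.E3.oneK hb ((pow_first ?_).trans hK), h3, ?_,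
    (pow_first ?_).trans hK, kk_big h3⟩
  · omega
  · omega
  · omega
  · omega

lemma sdHyp (hc : 20 ≤ c) : SdHyp c (Kfirst c) Sid := by
  refine ⟨Pool.Agent.E3.Sid_OK, fun e he => ?_⟩
  have h1 := (first_facts hc (K := Kfirst c) le_rfl).2.2.2.1
  have h8 := eight_dvd_ll (c := c) (e := e) hc (by omega)
  have h9 := d_big (c := c) (e := e) hc (by omega)
  have h10 : 8 ≤ ll c e := by
    have : 1 ≤ (c + 1) * (e + 100) := Nat.one_le_iff_ne_zero.mpr (by positivity)
    omega
  exact Pool.Agent.E3.Sid_ok ((by norm_num : 2 ∣ 8).trans h8) (by omega)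

/-- the constant `b` -/
def bfirst (c : ℕ) : ℕ :=
  b0c c + (4110 * CC c ^ 8 + 65) +
    (2 * Pool.Agent.Helper32.E3T.qq c + 1) * (2 * 28 + (4110 * CC c ^ 8 + 65))

/-- **everything for one value of the constant of the schedule** -/
theorem asmHyp (hc : 20 ≤ c) {Δ : ℕ → Pool.Agent.E3.Dt} (hΔ : DtOk c (Kfirst c) Sid Δ) :
    AsmHyp 28 132 (bfirst c) c (Kfirst c) (mk2 c Sid (TKof Δ)) (Pool.Agent.E3.nf c)
      (Pool.Agent.E3.h0 (mk2 c Sid (TKof Δ)) Δ c) := by
  have hc10 : 10 ≤ c := by omega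
  have hS := Pool.Agent.E3.Sid_OK
  have hbK := bigK_first hc
  have hSd := sdHyp hc
  have hT := Pool.Agent.Helper29.E3.tsHyp hbK
  have F := fun {K : ℕ} (hK : Kfirst c ≤ K) => first_facts hc hK
  have hG := geoOk hbK hT hSd
  have top : ∀ K, Kfirst c ≤ K → TopOK c K := fun K hK =>
    Pool.Agent.Helper29.E3.topOK (F hK).1.big
  have hTK : ∀ K, Kfirst c ≤ K → Pool.Agent.Helper32.E3T.TKOk c (TKof Δ) K := fun K hK =>
    ⟨Pool.Agent.Helper70.E3.tk_lt hbK hΔ hK, Pool.Agent.Helper70.E3.tk_sq hbK hΔ hK⟩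
  have hch : ∀ K, Kfirst c ≤ K → Chain 0 (lay (mk2 c Sid (TKof Δ)) c K) K := fun K hK =>
    Pool.Agent.Helper32.E3T.chain_lay2 (F hK).2.1.K (top K hK)
  have hgood : ∀ K, Kfirst c ≤ K → ∀ r ∈ lay (mk2 c Sid (TKof Δ)) c K,
      Pool.Agent.Helper32.E3T.GoodRg r := fun K hK r hr =>
    Pool.Agent.Helper32.E3T.good_lay hc hS (F hK).2.1 (top K hK) (F hK).1.E0
      (by have := (F hK).2.2.2.1; omega) (hTK K hK) hr
  have hcase : ∀ K K', Kfirst c ≤ K' → K' + gth c K ≤ K →
      CaseHyp c (mk2 c Sid (TKof Δ)).toCodes K K' := fun K K' h1 h2 =>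
    { c20 := hc
      K1 := (F h1).2.2.2.2.1
      g := h2
      O := (F (by omega)).2.1
      O' := (F h1).2.1
      F := farKin hc10 (by have := (F h1).2.2.2.1; omega) (by omega)
      D := codeFacts_mk2 hc hS }
  have htop : ∀ K K', Kfirst c ≤ K' → K' + gth c K ≤ K →
      Pool.Agent.Helper86.E3.TopHyp c (mk2 c Sid (TKof Δ)) K K' := fun K K' h1 h2 =>
    Pool.Agent.Helper86.E3.topHyp_mk2 hc hS (F h1).1.E0 (by omega)
  have hlen : ∀ K, Kfirst c ≤ K → (layL c K).length ≤ lenF 28 (4110 * CC c ^ 8 + 65) c K :=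
    fun K hK => length_layL_le (F hK).1.big (by norm_num) le_rfl
  exact
    { c20 := hc
      hcd := codeFacts_mk2 hc hS
      hH := fun _ => rfl
      sd := fun e he => (hSd.2 e he).card
      big := fun K hK => (F hK).1
      K100 := (F le_rfl).2.2.2.2.1
      one := fun K hK => (F hK).2.1
      kin := fun K K' h1 h2 => farKin hc10 (by have := (F h1).2.2.2.1; omega) (by omega)
      x4 := fun K K' h1 h2 => farCases4_mk2 hc hS (hcase K K' h1 h2)
      top := htop
      px := fun K K' h1 h2 => Pool.Agent.Helper86.E3.farPCases (hcase K K' h1 h2)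
        (htop K K' h1 h2)
      chain := hch
      card := fun K hK r hr => (hgood K hK r hr).card
      inj := fun K hK r hr => (hgood K hK r hr).inj
      ok01 := fun K hK => Pool.Agent.Helper32.E3T.ok01_layL Pool.Agent.Helper32.E3T.len_mk2 hc
        (F hK).2.1.K (top K hK) (F hK).1.E0
      len2 := fun K hK => Pool.Agent.Helper32.E3T.len2_layL (F hK).2.1.K (top K hK)
      nf0 := fun K hK => nf_zero (F hK).1.big (F hK).2.1.K.wb0
      nf1 := fun K _ => nf_last c K
      nfl := fun K hK => nf_len hc (F hK).1.big _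
      len := fun K hK => (hlen K hK).trans (lenF_mono (by unfold bfirst; omega) le_rfl)
      cnt := fun K hK => Pool.Agent.Helper32.E3T.cnt_lay (e1 := 2 ^ (4 * c)) (a := 28)
        (b0 := 4110 * CC c ^ 8 + 65) hc hS Pool.Agent.Helper32.E3T.sdBig_Sid le_rfl
        (F hK).2.1.K (F hK).2.1.S (top K hK)
        ((pow_first (by have := le_Nfirst c; omega)).trans hK)
        (Pool.Agent.Helper70.E3.tk_thick hbK hΔ hK) (hch K hK)
        (by
          unfold lay
          rw [List.length_map]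
          exact hlen K hK)
        (by unfold bfirst; omega)
      near := by
        intro K K' h1 h2 h3 h h' hh1 hh2 ν
        have h40 : 40 ≤ 2 ^ (4 * c) := by
          calc 40 ≤ 2 ^ 80 := by norm_num
            _ ≤ 2 ^ (4 * c) := Nat.pow_le_pow_right (by norm_num) (by omega)
        have hN := near_all (c := c) (e1 := 2 ^ (4 * c)) (μ := 132) (A := 153738)
          (D := mk2 c Sid (TKof Δ)) (QW := QWs c Sid) (QH := QHs c Sid)
          (G := geo c (Kfirst c) Sid) (Δ := Δ) (E := Enear c K') (K := K) (K' := K') hc10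
          (Pool.Agent.E3.mk_NearCodes2 hc hS h40 (by have := kk_big (c := c) (e := 2 ^ (4 * c)) le_rfl; omega))
          (link hT (fun _ _ => rfl)) hG (topZero_of hG hΔ) (topList_of hG hΔ)
          (fun K hK => ⟨⟨by omega, (F hK).2.1.K, (F hK).2.1.S, top K hK, (pow_first (by have := le_Nfirst c; omega)).trans hK,
            (F hK).2.2.1⟩, (F hK).1.big.ht, (F hK).1.big.hk⟩)
          (fun K K' hn => Pool.Agent.Helper29.E3.nearK2 (F hn.1).1.big hn.2.1 hn.2.2)
          ⟨h1, h2, h3⟩ (Enear_ok (F h1).1.big) hh1 hh2 ν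
        exact hN.trans (num_near (F h1).1.big h2 (by unfold bfirst; omega)) }

end

end Pool.Agent.E3S
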