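import Mathlib
import Pool.Agent.E3S.Inst
import Pool.Agent.E3S.Curve
import Pool.Agent.Helper32.E3.Thick
import Pool.Agent.Helper82.E3.Num

/-!
# E-T (MP_12a1af_nt), phase 3: the final theorem
-/

set_option autoImplicit false

namespace Pool.Agent.E3S

open Pool.Agent.Helper29.ETK (CC)
open Pool.Agent.Helper29.E3 (EpFn ofUV)
open Pool.Agent.Helper3.E3 (uv_ofUV)

/-- **the layouts and the codes** -/
theorem layPart [EpFn] : LayPart 28 132 := by
  refine ⟨20, fun c hc => ?_⟩
  have hbK := bigK_first hc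
  obtain ⟨Δ, hΔ⟩ := Pool.Agent.Helper70.E3.exists_dt hbK (Pool.Agent.Helper29.E3.tsHyp hbK)
    (sdHyp hc)
  exact ⟨bfirst c, Kfirst c, pow_first (by have := le_Nfirst c; omega), (asmHyp hc hΔ).oneC⟩

/-- **The final statement**, exponents `1 - u / v` and `2 u / v - 1`. -/
theorem finalStmt (u v : ℕ) (hv : 0 < v) (h1 : v ≤ 2 * u) (h2 : 3 * u ≤ 2 * v) :
    FinalStmt u v := by
  let _ : EpFn := ofUV hv h1 h2
  have H := uv_ofUV hv h1 h2
  exact final_of (Pool.Agent.Helper82.E3.numPart H 28 132) layPart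
    (Pool.Agent.Helper32.E3T.thickPart H)

end Pool.Agent.E3S
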